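import Mathlib

set_option autoImplicit false

namespace Pool.Agent.Helper919.Cov

open Finset

/-- convex and monotone on the nonnegative reals -/
def Good (φ : ℝ → ℝ) : Prop := ConvexOn ℝ (Set.Ici 0) φ ∧ MonotoneOn φ (Set.Ici 0)

lemma Good.scale {φ : ℝ → ℝ} (h : Good φ) (c : ℝ) (hc : 0 ≤ c) : Good (fun y => φ (c * y)) := by
  refine ⟨⟨convex_Ici 0, ?_⟩, ?_⟩
  · intro x hx y hy a b ha hb hab
    have := h.1.2 (show c * x ∈ Set.Ici 0 from mul_nonneg hc hx)
      (show c * y ∈ Set.Ici 0 from mul_nonneg hc hy) ha hb hab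
    have e : c * (a • x + b • y) = a • (c * x) + b • (c * y) := by
      simp only [smul_eq_mul]; ring
    show φ (c * (a • x + b • y)) ≤ _
    rw [e]
    exact this
  · intro x hx y hy hxy
    exact h.2 (mul_nonneg hc hx) (mul_nonneg hc hy) (mul_le_mul_of_nonneg_left hxy hc)

lemma Good.shift {φ : ℝ → ℝ} (h : Good φ) (c : ℝ) (hc : 0 ≤ c) : Good (fun y => φ (y + c)) := by
  refine ⟨⟨convex_Ici 0, ?_⟩, ?_⟩
  · intro x hx y hy a b ha hb hab
    have := h.1.2 (show x + c ∈ Set.Ici 0 from add_nonneg hx hc)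
      (show y + c ∈ Set.Ici 0 from add_nonneg hy hc) ha hb hab
    have e : a • x + b • y + c = a • (x + c) + b • (y + c) := by
      simp only [smul_eq_mul]
      have : c = (a + b) * c := by rw [hab, one_mul]
      linear_combination this
    show φ (a • x + b • y + c) ≤ _
    rw [e]
    exact this
  · intro x hx y hy hxy
    exact h.2 (add_nonneg hx hc) (add_nonneg hy hc) (by linarith)

/-- chord comparison -/
lemma chord {φ : ℝ → ℝ} (h : Good φ) (u s n a : ℝ) (hu : 0 ≤ u) (hus : u ≤ s) (hn : 0 ≤ n)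
    (hna : n ≤ a) : φ (u + n) ≤ φ u + (φ (s + a) - φ s) / a * n := by
  rcases eq_or_lt_of_le hn with rfl | hn'
  · simp
  have ha : 0 < a := lt_of_lt_of_le hn' hna
  have hs : 0 ≤ s := hu.trans hus
  have h1 : (φ (u + n) - φ u) / (u + n - u) ≤ (φ (s + a) - φ u) / (s + a - u) :=
    h.1.secant_mono (a := u) (x := u + n) (y := s + a) hu (show (0:ℝ) ≤ u + n by linarith)
      (show (0:ℝ) ≤ s + a by linarith) (by linarith) (by linarith) (by linarith)
  have h2 : (φ u - φ (s + a)) / (u - (s + a)) ≤ (φ s - φ (s + a)) / (s - (s + a)) :=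
    h.1.secant_mono (a := s + a) (x := u) (y := s) (show (0:ℝ) ≤ s + a by linarith) hu hs
      (by linarith) (by linarith) hus
  have e2 : (φ u - φ (s + a)) / (u - (s + a)) = (φ (s + a) - φ u) / (s + a - u) := by
    rw [← neg_sub (φ (s+a)) (φ u), ← neg_sub (s+a) u, neg_div_neg_eq]
  have e3 : (φ s - φ (s + a)) / (s - (s + a)) = (φ (s + a) - φ s) / a := by
    rw [← neg_sub (φ (s+a)) (φ s), ← neg_sub (s+a) s, neg_div_neg_eq, add_sub_cancel_left]
  rw [e2, e3] at h2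
  rw [add_sub_cancel_left] at h1
  have h3 := h1.trans h2
  rw [div_le_iff₀ hn'] at h3
  linarith

/-- comonotone comparison, pointwise form -/
lemma chord_sum {φ : ℝ → ℝ} (h : Good φ) (A n : ℕ → ℝ) (hn : ∀ k, 0 ≤ n k) (hnA : ∀ k, n k ≤ A k)
    (h0 : n 0 = A 0) (K : ℕ) :
    φ (∑ k ∈ range (K + 1), n k) ≤ φ (A 0) + ∑ k ∈ range K,
      (φ (∑ i ∈ range (k + 2), A i) - φ (∑ i ∈ range (k + 1), A i)) / A (k + 1) * n (k + 1) := by
  induction K with
  | zero => simp [h0]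
  | succ K ih =>
    rw [Finset.sum_range_succ n, Finset.sum_range_succ (fun k =>
      (φ (∑ i ∈ range (k + 2), A i) - φ (∑ i ∈ range (k + 1), A i)) / A (k + 1) * n (k + 1))]
    have h1 := chord h (∑ k ∈ range (K + 1), n k) (∑ i ∈ range (K + 1), A i) (n (K + 1))
      (A (K + 1)) (Finset.sum_nonneg fun k _ => hn k) (Finset.sum_le_sum fun k _ => hnA k)
      (hn _) (hnA _)
    rw [← Finset.sum_range_succ A] at h1
    linarith

/-- comonotone comparison, averaged form -/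
lemma chord_avg {φ : ℝ → ℝ} (h : Good φ) (B : ℕ) (ρ : ℕ → ℝ) (hρ : ∀ j, 0 ≤ ρ j)
    (hρ1 : ∑ j ∈ range B, ρ j = 1)
    (A : ℕ → ℝ) (n : ℕ → ℕ → ℝ) (hn : ∀ j k, 0 ≤ n j k) (hnA : ∀ j k, n j k ≤ A k)
    (h0 : ∀ j, n j 0 = A 0) (π : ℕ → ℝ) (E : ℕ)
    (hπ : ∀ k, k < E → ∑ j ∈ range B, ρ j * n j (k + 1) ≤ π (k + 1) * A (k + 1)) :
    ∑ j ∈ range B, ρ j * φ (∑ k ∈ range (E + 1), n j k) ≤ φ (A 0) + ∑ k ∈ range E,
      π (k + 1) * (φ (∑ i ∈ range (k + 2), A i) - φ (∑ i ∈ range (k + 1), A i)) := by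
  rcases Nat.eq_zero_or_pos B with hB | hB
  · subst hB
    simp at hρ1
  have hA : ∀ k, 0 ≤ A k := fun k => (hn 0 k).trans (hnA 0 k)
  have h1 : ∀ j ∈ range B, ρ j * φ (∑ k ∈ range (E + 1), n j k) ≤ ρ j * φ (A 0) +
      ∑ k ∈ range E, (φ (∑ i ∈ range (k + 2), A i) - φ (∑ i ∈ range (k + 1), A i)) / A (k + 1)
        * (ρ j * n j (k + 1)) := by
    intro j _
    have := mul_le_mul_of_nonneg_left (chord_sum h A (n j) (hn j) (hnA j) (h0 j) E) (hρ j)
    rw [mul_add, Finset.mul_sum] at this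
    refine this.trans (le_of_eq ?_)
    congr 1
    apply Finset.sum_congr rfl
    intro k _
    ring
  refine (Finset.sum_le_sum h1).trans ?_
  rw [Finset.sum_add_distrib, ← Finset.sum_mul, hρ1, one_mul, Finset.sum_comm]
  refine add_le_add (le_refl _) (Finset.sum_le_sum fun k hk => ?_)
  rw [← Finset.mul_sum]
  have hS : 0 ≤ ∑ i ∈ range (k + 1), A i := Finset.sum_nonneg fun i _ => hA i
  have hS2 : ∑ i ∈ range (k + 2), A i = ∑ i ∈ range (k + 1), A i + A (k + 1) :=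
    Finset.sum_range_succ _ _
  have hd : 0 ≤ φ (∑ i ∈ range (k + 2), A i) - φ (∑ i ∈ range (k + 1), A i) := by
    have := h.2 (show (0:ℝ) ≤ ∑ i ∈ range (k + 1), A i from hS)
      (show (0:ℝ) ≤ ∑ i ∈ range (k + 2), A i by rw [hS2]; linarith [hA (k+1)])
      (by rw [hS2]; linarith [hA (k+1)])
    linarith
  have h2 := mul_le_mul_of_nonneg_left (hπ k (Finset.mem_range.1 hk))
    (div_nonneg hd (hA (k + 1)))
  refine h2.trans (le_of_eq ?_)
  rcases eq_or_ne (A (k + 1)) 0 with h3 | h3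
  · rw [hS2, h3]; simp
  · field_simp

/-- Abel summation -/
lemma abel (π f : ℕ → ℝ) (E : ℕ) :
    ∑ K ∈ range (E + 1), (π K - π (K + 1)) * f K + π (E + 1) * f E
      = π 0 * f 0 + ∑ k ∈ range E, π (k + 1) * (f (k + 1) - f k) := by
  induction E with
  | zero => simp; ring
  | succ E ih =>
    rw [Finset.sum_range_succ _ (E + 1),
      Finset.sum_range_succ (fun k => π (k + 1) * (f (k + 1) - f k)) E]
    linarith

/-- Jensen with equal weights -/
lemma jensen {φ : ℝ → ℝ} (h : Good φ) (A : ℕ → ℝ) (hA : ∀ k, 0 ≤ A k) (K : ℕ) :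
    φ (∑ k ∈ range (K + 1), A k) ≤ (1 / ((K : ℝ) + 1)) *
      ∑ k ∈ range (K + 1), φ (((K : ℝ) + 1) * A k) := by
  have hK : (0 : ℝ) < (K : ℝ) + 1 := by positivity
  have h1 := h.1.map_sum_le (t := range (K + 1)) (w := fun _ => 1 / ((K : ℝ) + 1))
    (p := fun k => ((K : ℝ) + 1) * A k) (fun _ _ => by positivity)
    (by rw [Finset.sum_const, card_range, nsmul_eq_mul]; push_cast; field_simp)
    (fun k _ => mul_nonneg hK.le (hA k))
  simp only [smul_eq_mul] at h1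
  rw [← Finset.mul_sum (s := range (K + 1)) (f := fun k => φ (((K : ℝ) + 1) * A k))] at h1
  refine le_trans (le_of_eq ?_) h1
  congr 1
  apply Finset.sum_congr rfl
  intro k _
  field_simp

end Pool.Agent.Helper919.Cov
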