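import Mathlib

set_option autoImplicit false

namespace Pool.Agent.Helper919.Cov

open Finset

lemma count_class (q A E k : ℕ) (hq : 0 < q) (hcop : Nat.Coprime A q) (hk : k ≤ E) (x : ℕ)
    (a : ℤ) :
    ((range (q ^ E)).filter (fun j => ((q ^ k : ℕ) : ℤ) ∣ ((x + j * A : ℕ) : ℤ) - a)).card
      = q ^ (E - k) := by
  have hqk : 0 < q ^ k := pow_pos hq k
  have hc : IsCoprime (A : ℤ) ((q ^ k : ℕ) : ℤ) := by
    rw [Nat.isCoprime_iff_coprime]
    exact Nat.Coprime.pow_right k hcop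
  obtain ⟨u, v, huv⟩ := hc
  -- u * A + v * q^k = 1
  set j0 : ℕ := ((u * (a - x)) % ((q ^ k : ℕ) : ℤ)).toNat with hj0
  have hj0' : ((j0 : ℕ) : ℤ) = (u * (a - x)) % ((q ^ k : ℕ) : ℤ) := by
    rw [hj0, Int.toNat_of_nonneg]
    exact Int.emod_nonneg _ (by exact_mod_cast hqk.ne')
  have hiff : ∀ j : ℕ, (((q ^ k : ℕ) : ℤ) ∣ ((x + j * A : ℕ) : ℤ) - a) ↔ j ≡ j0 [MOD q ^ k] := by
    intro j
    rw [← Int.natCast_modEq_iff, hj0']
    have e1 : ((j : ℤ) ≡ (u * (a - x)) % ((q ^ k : ℕ) : ℤ) [ZMOD ((q ^ k : ℕ) : ℤ)])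
        ↔ ((j : ℤ) ≡ (u * (a - x)) [ZMOD ((q ^ k : ℕ) : ℤ)]) := by
      constructor
      · intro h; exact h.trans (Int.mod_modEq _ _)
      · intro h; exact h.trans (Int.mod_modEq _ _).symm
    rw [e1, Int.modEq_comm, Int.modEq_iff_dvd]
    push_cast
    constructor
    · rintro ⟨c, hc⟩
      refine ⟨u * c + v * j, ?_⟩
      push_cast at huv
      linear_combination u * hc - (j : ℤ) * huv
    · rintro ⟨c, hc⟩
      refine ⟨A * c + v * (x - a), ?_⟩
      push_cast at huv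
      linear_combination (A : ℤ) * hc - (x - a) * huv
  have h1 : (range (q ^ E)).filter (fun j => ((q ^ k : ℕ) : ℤ) ∣ ((x + j * A : ℕ) : ℤ) - a)
      = (range (q ^ E)).filter (fun j => j ≡ j0 [MOD q ^ k]) := by
    apply Finset.filter_congr
    intro j _
    exact hiff j
  rw [h1, ← Nat.count_eq_card_filter_range, Nat.count_modEq_card _ hqk]
  have h2 : q ^ E = q ^ (E - k) * q ^ k := by rw [← pow_add]; congr 1; omega
  rw [h2, Nat.mul_div_cancel _ hqk, Nat.mul_mod_left]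
  simp

end Pool.Agent.Helper919.Cov
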