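import Mathlib

set_option autoImplicit false

namespace Pool.Agent.Helper919.Cov

open Finset
open scoped Classical

/-- average of `f` over one period `Q` -/
noncomputable def mn (Q : ℕ) (f : ℕ → ℝ) : ℝ := (∑ x ∈ range Q, f x) / Q

lemma sum_shift (Q : ℕ) (f : ℕ → ℝ) (hf : ∀ x, f (x + Q) = f x) (c : ℕ) :
    ∑ x ∈ range Q, f (x + c) = ∑ x ∈ range Q, f x := by
  induction c with
  | zero => simp
  | succ c ih =>
    have h1 : ∑ x ∈ range Q, f (x + (c + 1)) + f (0 + c) = ∑ x ∈ range (Q + 1), f (x + c) := by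
      rw [Finset.sum_range_succ' (fun x => f (x + c))]
      congr 1
      apply Finset.sum_congr rfl
      intro x _
      congr 1
      ring
    have h2 : ∑ x ∈ range (Q + 1), f (x + c) = ∑ x ∈ range Q, f (x + c) + f (Q + c) :=
      Finset.sum_range_succ _ _
    have h3 : f (Q + c) = f (0 + c) := by
      rw [Nat.add_comm Q c, hf, Nat.zero_add]
    rw [← ih]
    linarith

lemma mn_shift (Q : ℕ) (f : ℕ → ℝ) (hf : ∀ x, f (x + Q) = f x) (c : ℕ) :
    mn Q (fun x => f (x + c)) = mn Q f := by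
  unfold mn
  rw [sum_shift Q f hf c]

lemma mn_mono (Q : ℕ) (f g : ℕ → ℝ) (h : ∀ x, f x ≤ g x) : mn Q f ≤ mn Q g := by
  unfold mn
  apply div_le_div_of_nonneg_right _ (Nat.cast_nonneg Q)
  exact Finset.sum_le_sum fun x _ => h x

lemma mn_add (Q : ℕ) (f g : ℕ → ℝ) : mn Q (fun x => f x + g x) = mn Q f + mn Q g := by
  unfold mn
  rw [Finset.sum_add_distrib, add_div]

lemma mn_smul (Q : ℕ) (c : ℝ) (f : ℕ → ℝ) : mn Q (fun x => c * f x) = c * mn Q f := by
  unfold mn
  rw [← Finset.mul_sum, mul_div_assoc]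

lemma mn_sum {ι : Type} (s : Finset ι) (Q : ℕ) (f : ι → ℕ → ℝ) :
    mn Q (fun x => ∑ i ∈ s, f i x) = ∑ i ∈ s, mn Q (f i) := by
  unfold mn
  rw [Finset.sum_comm, Finset.sum_div]

lemma mn_nonneg (Q : ℕ) (f : ℕ → ℝ) (h : ∀ x, 0 ≤ f x) : 0 ≤ mn Q f := by
  unfold mn
  exact div_nonneg (Finset.sum_nonneg fun x _ => h x) (Nat.cast_nonneg Q)

/-- fibre averaging -/
lemma mn_fibre (Q A B : ℕ) (hB : 0 < B) (f : ℕ → ℝ) (hf : ∀ x, f (x + Q) = f x) :
    mn Q f = mn Q (fun x => (∑ j ∈ range B, f (x + j * A)) / B) := by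
  have h1 : mn Q (fun x => (∑ j ∈ range B, f (x + j * A)) / B)
      = (1 / (B : ℝ)) * ∑ j ∈ range B, mn Q (fun x => f (x + j * A)) := by
    rw [← mn_sum, ← mn_smul]
    congr 1
    funext x
    ring
  rw [h1]
  have h2 : ∀ j ∈ range B, mn Q (fun x => f (x + j * A)) = mn Q f := fun j _ => mn_shift Q f hf _
  rw [Finset.sum_congr rfl h2, Finset.sum_const, card_range, nsmul_eq_mul]
  have : (B : ℝ) ≠ 0 := by positivity
  field_simp

/-- indicator -/
noncomputable def ind (U : ℕ → Prop) (x : ℕ) : ℝ := if U x then 1 else 0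

lemma ind_nonneg (U : ℕ → Prop) (x : ℕ) : 0 ≤ ind U x := by unfold ind; split_ifs <;> norm_num
lemma ind_le (U : ℕ → Prop) (x : ℕ) : ind U x ≤ 1 := by unfold ind; split_ifs <;> norm_num

/-- density of `U` along the fibre through `x` -/
noncomputable def al (A B : ℕ) (U : ℕ → Prop) (x : ℕ) : ℝ :=
  (∑ j ∈ range B, ind U (x + j * A)) / B

lemma al_nonneg (A B : ℕ) (U : ℕ → Prop) (x : ℕ) : 0 ≤ al A B U x :=
  div_nonneg (Finset.sum_nonneg fun _ _ => ind_nonneg _ _) (Nat.cast_nonneg _)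

lemma al_le (A B : ℕ) (hB : 0 < B) (U : ℕ → Prop) (x : ℕ) : al A B U x ≤ 1 := by
  unfold al
  rw [div_le_one (by positivity)]
  calc ∑ j ∈ range B, ind U (x + j * A) ≤ ∑ j ∈ range B, (1 : ℝ) :=
        Finset.sum_le_sum fun _ _ => ind_le _ _
    _ = B := by simp

lemma fib_shift (A B : ℕ) (f : ℕ → ℝ) (hf : ∀ x, f (x + A * B) = f x) (x : ℕ) :
    ∑ j ∈ range B, f (x + A + j * A) = ∑ j ∈ range B, f (x + j * A) := by
  have h := sum_shift B (fun j => f (x + j * A)) (fun j => by
    have : x + (j + B) * A = x + j * A + A * B := by ring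
    show f (x + (j + B) * A) = _
    rw [this, hf]) 1
  rw [← h]
  apply Finset.sum_congr rfl
  intro j _
  congr 1
  ring

lemma al_per (A B : ℕ) (U : ℕ → Prop) (hU : ∀ x, U (x + A * B) ↔ U x) (x : ℕ) :
    al A B U (x + A) = al A B U x := by
  unfold al
  rw [fib_shift A B (ind U) (fun x => by unfold ind; simp only [hU])]

lemma per_mul {α : Type} (f : ℕ → α) (A : ℕ) (hf : ∀ x, f (x + A) = f x) (x j : ℕ) :
    f (x + j * A) = f x := by
  induction j with
  | zero => simp
  | succ j ih =>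
    have : x + (j + 1) * A = x + j * A + A := by ring
    rw [this, hf, ih]

lemma per_dvd {α : Type} (f : ℕ → α) (A Q : ℕ) (hf : ∀ x, f (x + A) = f x) (h : A ∣ Q) (x : ℕ) :
    f (x + Q) = f x := by
  obtain ⟨k, rfl⟩ := h
  rw [Nat.mul_comm]
  exact per_mul f A hf x k

/-- the distortion factor -/
noncomputable def hh (A B : ℕ) (U : ℕ → Prop) (δ : ℝ) (x : ℕ) : ℝ :=
  if al A B U x < δ then (if U x then 0 else 1 / (1 - al A B U x))
  else (if U x then (al A B U x - δ) / (al A B U x * (1 - δ)) else 1 / (1 - δ))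

lemma hh_nonneg (A B : ℕ) (U : ℕ → Prop) (δ : ℝ) (h1 : δ < 1) (x : ℕ) :
    0 ≤ hh A B U δ x := by
  have ha := al_nonneg A B U x
  unfold hh
  split_ifs with h2 h3 h3
  · exact le_refl _
  · exact div_nonneg (by norm_num) (by linarith)
  · exact div_nonneg (by linarith) (mul_nonneg ha (by linarith))
  · exact div_nonneg (by norm_num) (by linarith)

lemma hh_le (A B : ℕ) (U : ℕ → Prop) (δ : ℝ) (h0 : 0 < δ) (h1 : δ < 1) (x : ℕ) :
    hh A B U δ x ≤ 1 / (1 - δ) := by
  have ha := al_nonneg A B U x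
  unfold hh
  split_ifs with h2 h3 h3
  · exact div_nonneg (by norm_num) (by linarith)
  · exact one_div_le_one_div_of_le (by linarith) (by linarith)
  · have hp : 0 < al A B U x := by linarith [not_lt.1 h2]
    rw [div_le_div_iff₀ (mul_pos hp (by linarith)) (by linarith)]
    nlinarith [not_lt.1 h2]
  · exact le_refl _

/-- generic fibre computation -/
lemma fib_two (A B : ℕ) (hB : 0 < B) (U : ℕ → Prop) (x : ℕ) (u v : ℝ) :
    (∑ j ∈ range B, (if U (x + j * A) then u else v)) / B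
      = u * al A B U x + v * (1 - al A B U x) := by
  have h1 : ∑ j ∈ range B, (if U (x + j * A) then u else v)
      = u * (∑ j ∈ range B, ind U (x + j * A)) + v * (B - ∑ j ∈ range B, ind U (x + j * A)) := by
    have h2 : (B : ℝ) = ∑ j ∈ range B, (1 : ℝ) := by simp
    rw [h2, ← Finset.sum_sub_distrib, Finset.mul_sum, Finset.mul_sum, ← Finset.sum_add_distrib]
    apply Finset.sum_congr rfl
    intro j _
    unfold ind
    split_ifs <;> ring
  rw [h1]
  unfold al
  have : (B : ℝ) ≠ 0 := by positivity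
  field_simp

lemma hh_fib (A B : ℕ) (hB : 0 < B) (U : ℕ → Prop) (hU : ∀ x, U (x + A * B) ↔ U x)
    (δ : ℝ) (h0 : 0 < δ) (h1 : δ < 1) (x : ℕ) :
    (∑ j ∈ range B, hh A B U δ (x + j * A)) / B = 1 := by
  have hal : ∀ j, al A B U (x + j * A) = al A B U x := fun j =>
    per_mul (al A B U) A (al_per A B U hU) x j
  by_cases h2 : al A B U x < δ
  · have : ∀ j ∈ range B, hh A B U δ (x + j * A)
        = if U (x + j * A) then 0 else 1 / (1 - al A B U x) := by
      intro j _
      unfold hh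
      rw [hal j, if_pos h2]
    rw [Finset.sum_congr rfl this, fib_two A B hB]
    have : 1 - al A B U x ≠ 0 := by
      have : 0 < 1 - al A B U x := by linarith
      exact this.ne'
    field_simp
    ring
  · have : ∀ j ∈ range B, hh A B U δ (x + j * A)
        = if U (x + j * A) then (al A B U x - δ) / (al A B U x * (1 - δ)) else 1 / (1 - δ) := by
      intro j _
      unfold hh
      rw [hal j, if_neg h2]
    rw [Finset.sum_congr rfl this, fib_two A B hB]
    have hp : al A B U x ≠ 0 := by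
      have : 0 < al A B U x := by linarith [not_lt.1 h2]
      exact this.ne'
    have h3 : 1 - δ ≠ 0 := by
      have : 0 < 1 - δ := by linarith
      exact this.ne'
    field_simp
    ring

lemma hh_cost (A B : ℕ) (hB : 0 < B) (U : ℕ → Prop) (hU : ∀ x, U (x + A * B) ↔ U x)
    (δ : ℝ) (h0 : 0 < δ) (h1 : δ < 1) (x : ℕ) :
    (∑ j ∈ range B, hh A B U δ (x + j * A) * ind U (x + j * A)) / B
      = max (al A B U x - δ) 0 / (1 - δ) := by
  have hal : ∀ j, al A B U (x + j * A) = al A B U x := fun j =>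
    per_mul (al A B U) A (al_per A B U hU) x j
  by_cases h2 : al A B U x < δ
  · have : ∀ j ∈ range B, hh A B U δ (x + j * A) * ind U (x + j * A)
        = if U (x + j * A) then 0 else 0 := by
      intro j _
      unfold hh ind
      rw [hal j, if_pos h2]
      split_ifs <;> ring
    rw [Finset.sum_congr rfl this, fib_two A B hB, max_eq_right (by linarith)]
    ring
  · have : ∀ j ∈ range B, hh A B U δ (x + j * A) * ind U (x + j * A)
        = if U (x + j * A) then (al A B U x - δ) / (al A B U x * (1 - δ)) else 0 := by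
      intro j _
      unfold hh ind
      rw [hal j, if_neg h2]
      split_ifs <;> ring
    rw [Finset.sum_congr rfl this, fib_two A B hB, max_eq_left (by linarith [not_lt.1 h2])]
    have hp : al A B U x ≠ 0 := by
      have : 0 < al A B U x := by linarith [not_lt.1 h2]
      exact this.ne'
    have h3 : 1 - δ ≠ 0 := by
      have : 0 < 1 - δ := by linarith
      exact this.ne'
    field_simp
    ring

lemma hh_per (A B : ℕ) (U : ℕ → Prop) (hU : ∀ x, U (x + A * B) ↔ U x) (δ : ℝ) (x : ℕ) :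
    hh A B U δ (x + A * B) = hh A B U δ x := by
  unfold hh
  have h1 : al A B U (x + A * B) = al A B U x := by
    rw [Nat.mul_comm]
    exact per_mul (al A B U) A (al_per A B U hU) x B
  simp only [h1, hU]

/-- average of the distorted weight against `F` -/
lemma mn_stage (Q A B : ℕ) (hB : 0 < B) (hQ : A * B ∣ Q) (U : ℕ → Prop)
    (hU : ∀ x, U (x + A * B) ↔ U x) (δ : ℝ) (w F : ℕ → ℝ)
    (hw : ∀ x, w (x + A) = w x) (hF : ∀ x, F (x + Q) = F x) :
    mn Q (fun x => w x * hh A B U δ x * F x)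
      = mn Q (fun x => w x * ((∑ j ∈ range B, hh A B U δ (x + j * A) * F (x + j * A)) / B)) := by
  have hAQ : A ∣ Q := Dvd.dvd.trans (Dvd.intro _ rfl) hQ
  rw [mn_fibre Q A B hB (fun x => w x * hh A B U δ x * F x)]
  · congr 1
    funext x
    have : ∀ j ∈ range B, w (x + j * A) * hh A B U δ (x + j * A) * F (x + j * A)
        = w x * (hh A B U δ (x + j * A) * F (x + j * A)) := by
      intro j _
      rw [per_mul w A hw x j]
      ring
    rw [Finset.sum_congr rfl this, ← Finset.mul_sum, mul_div_assoc]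
  · intro x
    show w (x + Q) * hh A B U δ (x + Q) * F (x + Q) = _
    rw [per_dvd w A Q hw hAQ, hF, per_dvd (hh A B U δ) (A * B) Q (hh_per A B U hU δ) hQ]

lemma mn_stage_inv (Q A B : ℕ) (hB : 0 < B) (hQ : A * B ∣ Q) (U : ℕ → Prop)
    (hU : ∀ x, U (x + A * B) ↔ U x) (δ : ℝ) (h0 : 0 < δ) (h1 : δ < 1) (w F : ℕ → ℝ)
    (hw : ∀ x, w (x + A) = w x) (hF : ∀ x, F (x + A) = F x) :
    mn Q (fun x => w x * hh A B U δ x * F x) = mn Q (fun x => w x * F x) := by
  have hAQ : A ∣ Q := Dvd.dvd.trans (Dvd.intro _ rfl) hQ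
  rw [mn_stage Q A B hB hQ U hU δ w F hw (fun x => per_dvd F A Q hF hAQ x)]
  congr 1
  funext x
  have : ∀ j ∈ range B, hh A B U δ (x + j * A) * F (x + j * A)
      = F x * hh A B U δ (x + j * A) := by
    intro j _
    rw [per_mul F A hF x j]
    ring
  rw [Finset.sum_congr rfl this, ← Finset.mul_sum, mul_div_assoc, hh_fib A B hB U hU δ h0 h1]
  ring

lemma mn_stage_cost (Q A B : ℕ) (hB : 0 < B) (hQ : A * B ∣ Q) (U : ℕ → Prop)
    (hU : ∀ x, U (x + A * B) ↔ U x) (δ : ℝ) (h0 : 0 < δ) (h1 : δ < 1) (w : ℕ → ℝ)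
    (hw : ∀ x, w (x + A) = w x) :
    mn Q (fun x => w x * hh A B U δ x * ind U x)
      = mn Q (fun x => w x * (max (al A B U x - δ) 0 / (1 - δ))) := by
  rw [mn_stage Q A B hB hQ U hU δ w (ind U) hw]
  · congr 1
    funext x
    rw [hh_cost A B hB U hU δ h0 h1]
  · intro x
    have : ∀ x, ind U (x + A * B) = ind U x := fun x => by unfold ind; simp only [hU]
    exact per_dvd (ind U) (A * B) Q this hQ x

end Pool.Agent.Helper919.Cov
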