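import Mathlib
import Pool.Agent.Helper919.Cov.Stage
import Pool.Agent.Helper919.Cov.Chord
import Pool.Agent.Helper919.Cov.Count

set_option autoImplicit false

namespace Pool.Agent.Helper919.Cov

open Finset
open scoped Classical

/-- exponent bound -/
def ex (E n : ℕ) : ℕ := if n = 3 then 1 else E

/-- modulus built from the odd primes below `n` -/
def AA (E : ℕ) : ℕ → ℕ
  | 0 => 1
  | n + 1 => if n.Prime ∧ n ≠ 2 then AA E n * n ^ (ex E n) else AA E n

lemma AA_act (E n : ℕ) (h : n.Prime ∧ n ≠ 2) : AA E (n + 1) = AA E n * n ^ (ex E n) := by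
  show (if n.Prime ∧ n ≠ 2 then AA E n * n ^ (ex E n) else AA E n) = _
  rw [if_pos h]

lemma AA_skip (E n : ℕ) (h : ¬ (n.Prime ∧ n ≠ 2)) : AA E (n + 1) = AA E n := by
  show (if n.Prime ∧ n ≠ 2 then AA E n * n ^ (ex E n) else AA E n) = _
  rw [if_neg h]

lemma AA_pos (E n : ℕ) : 0 < AA E n := by
  induction n with
  | zero => exact Nat.one_pos
  | succ n ih =>
    by_cases h : n.Prime ∧ n ≠ 2
    · rw [AA_act E n h]
      exact Nat.mul_pos ih (pow_pos h.1.pos _)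
    · rw [AA_skip E n h]; exact ih

lemma AA_dvd_succ (E n : ℕ) : AA E n ∣ AA E (n + 1) := by
  by_cases h : n.Prime ∧ n ≠ 2
  · rw [AA_act E n h]; exact Dvd.intro _ rfl
  · rw [AA_skip E n h]

lemma AA_dvd (E n m : ℕ) (h : n ≤ m) : AA E n ∣ AA E m := by
  induction m, h using Nat.le_induction with
  | base => exact dvd_rfl
  | succ m _ ih => exact ih.trans (AA_dvd_succ E m)

lemma AA_coprime (E n p : ℕ) (hp : p.Prime) (h : n ≤ p) : Nat.Coprime (AA E n) p := by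
  induction n with
  | zero => exact Nat.coprime_one_left p
  | succ n ih =>
    have ih' := ih (by omega)
    by_cases h2 : n.Prime ∧ n ≠ 2
    · rw [AA_act E n h2]
      exact Nat.Coprime.mul_left ih'
        (Nat.Coprime.pow_left _ ((Nat.coprime_primes h2.1 hp).2 (by omega)))
    · rw [AA_skip E n h2]; exact ih'

/-- allowed moduli built from odd primes below `n` -/
def DD (E n : ℕ) : Finset ℕ := (AA E n).divisors.filter (fun m : ℕ => ¬ 15 ∣ m)

lemma mem_DD {E n m : ℕ} : m ∈ DD E n ↔ m ∣ AA E n ∧ ¬ 15 ∣ m := by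
  unfold DD
  rw [Finset.mem_filter, Nat.mem_divisors]
  constructor
  · rintro ⟨⟨h, _⟩, h2⟩; exact ⟨h, h2⟩
  · rintro ⟨h, h2⟩; exact ⟨⟨h, (AA_pos E n).ne'⟩, h2⟩

/-- cofactors of the moduli with exact exponent `k` of `n` -/
def Dk (E n k : ℕ) : Finset ℕ := if n = 5 ∧ k ≠ 0 then {1} else DD E n

lemma AA3 (E : ℕ) : AA E 3 = 1 := by
  rw [AA_skip E 2 (by simp), AA_skip E 1 (by simp [Nat.not_prime_one]),
    AA_skip E 0 (by simp [Nat.not_prime_zero])]
  rfl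

lemma AA5 (E : ℕ) : AA E 5 = 3 := by
  rw [AA_skip E 4 (by norm_num), AA_act E 3 (by norm_num), AA3]
  simp [ex]

lemma Dk_dvd {E n k m : ℕ} (h : m ∈ Dk E n k) : m ∣ AA E n := by
  unfold Dk at h
  split_ifs at h with h1
  · rw [Finset.mem_singleton] at h; rw [h]; exact one_dvd _
  · exact (mem_DD.1 h).1

lemma decomp {E n m : ℕ} (hn : n.Prime ∧ n ≠ 2) (hm : m ∈ DD E (n + 1)) :
    ∃ k, k ≤ ex E n ∧ ∃ m' ∈ Dk E n k, m = m' * n ^ k := by
  obtain ⟨h1, h2⟩ := mem_DD.1 hm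
  rw [AA_act E n hn] at h1
  obtain ⟨m1, m2, hm1, hm2, hmm⟩ := (Nat.dvd_mul).1 h1
  obtain ⟨k, hk, rfl⟩ := (Nat.dvd_prime_pow hn.1).1 hm2
  refine ⟨k, hk, m1, ?_, hmm.symm⟩
  unfold Dk
  split_ifs with h3
  · obtain ⟨h5, hk0⟩ := h3
    subst h5
    rw [AA5] at hm1
    rcases (Nat.dvd_prime Nat.prime_three).1 hm1 with h | h
    · rw [h]; exact Finset.mem_singleton_self 1
    · exfalso
      apply h2
      rw [← hmm, h]
      have : 3 * 5 ∣ 3 * 5 ^ k := Nat.mul_dvd_mul_left 3 (dvd_pow_self 5 hk0)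
      exact this
  · rw [mem_DD]
    refine ⟨hm1, fun h4 => h2 ?_⟩
    rw [← hmm]
    exact h4.trans (Dvd.intro _ rfl)

/-- number of matched classes -/
noncomputable def cnt (D : Finset ℕ) (a : ℕ → ℤ) (x : ℕ) : ℕ :=
  (D.filter (fun m : ℕ => (m : ℤ) ∣ (x : ℤ) - a m)).card

/-- number of matched classes of exact level `k` -/
noncomputable def lev (E n k : ℕ) (a : ℕ → ℤ) (y : ℕ) : ℕ :=
  ((Dk E n k).filter (fun m : ℕ => ((m * n ^ k : ℕ) : ℤ) ∣ (y : ℤ) - a (m * n ^ k))).card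

/-- number of classes of exact level `k` matched away from `n` -/
noncomputable def top (E n k : ℕ) (a : ℕ → ℤ) (x : ℕ) : ℕ :=
  cnt (Dk E n k) (fun m : ℕ => a (m * n ^ k)) x

lemma cnt_le_lev {E n : ℕ} (hn : n.Prime ∧ n ≠ 2) (a : ℕ → ℤ) (y : ℕ) :
    cnt (DD E (n + 1)) a y ≤ ∑ k ∈ range (ex E n + 1), lev E n k a y := by
  have h1 : (DD E (n + 1)).filter (fun m : ℕ => (m : ℤ) ∣ (y : ℤ) - a m) ⊆
      (range (ex E n + 1)).biUnion (fun k => ((Dk E n k).filter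
        (fun m : ℕ => ((m * n ^ k : ℕ) : ℤ) ∣ (y : ℤ) - a (m * n ^ k))).image (fun m => m * n ^ k)) := by
    intro m hm
    rw [Finset.mem_filter] at hm
    obtain ⟨k, hk, m', hm', rfl⟩ := decomp hn hm.1
    rw [Finset.mem_biUnion]
    refine ⟨k, Finset.mem_range.2 (by omega), ?_⟩
    rw [Finset.mem_image]
    exact ⟨m', Finset.mem_filter.2 ⟨hm', hm.2⟩, rfl⟩
  unfold cnt
  refine (Finset.card_le_card h1).trans (Finset.card_biUnion_le.trans ?_)
  exact Finset.sum_le_sum fun k _ => Finset.card_image_le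

lemma dvd_shift {E n m x j : ℕ} {c : ℤ} (h : m ∣ AA E n) :
    ((m : ℤ) ∣ ((x + j * AA E n : ℕ) : ℤ) - c) ↔ ((m : ℤ) ∣ (x : ℤ) - c) := by
  have h2 : (m : ℤ) ∣ ((j * AA E n : ℕ) : ℤ) := by
    exact_mod_cast h.mul_left j
  have e : ((x + j * AA E n : ℕ) : ℤ) - c = ((x : ℤ) - c) + ((j * AA E n : ℕ) : ℤ) := by
    push_cast; ring
  rw [e]
  exact (dvd_add_left h2)

lemma lev_le_top (E n k : ℕ) (a : ℕ → ℤ) (x j : ℕ) :
    lev E n k a (x + j * AA E n) ≤ top E n k a x := by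
  unfold lev top cnt
  apply Finset.card_le_card
  intro m hm
  rw [Finset.mem_filter] at hm ⊢
  refine ⟨hm.1, ?_⟩
  have h1 : (m : ℤ) ∣ ((x + j * AA E n : ℕ) : ℤ) - a (m * n ^ k) := by
    refine dvd_trans ?_ hm.2
    exact_mod_cast Dvd.intro (n ^ k) rfl
  exact (dvd_shift (Dk_dvd hm.1)).1 h1

lemma lev_zero (E n : ℕ) (a : ℕ → ℤ) (x j : ℕ) :
    lev E n 0 a (x + j * AA E n) = top E n 0 a x := by
  unfold lev top cnt
  congr 1
  apply Finset.filter_congr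
  intro m hm
  simp only [pow_zero, mul_one]
  exact dvd_shift (Dk_dvd hm)

lemma lev_sum {E n k : ℕ} (hn : n.Prime) (hk : k ≤ ex E n) (a : ℕ → ℤ) (x : ℕ) :
    ∑ j ∈ range (n ^ ex E n), lev E n k a (x + j * AA E n)
      ≤ top E n k a x * n ^ (ex E n - k) := by
  have h1 : ∀ j ∈ range (n ^ ex E n), lev E n k a (x + j * AA E n) ≤
      ∑ m ∈ (Dk E n k).filter (fun m : ℕ => (m : ℤ) ∣ (x : ℤ) - a (m * n ^ k)),
        (if ((n ^ k : ℕ) : ℤ) ∣ ((x + j * AA E n : ℕ) : ℤ) - a (m * n ^ k) then 1 else 0) := by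
    intro j _
    rw [← Finset.card_filter]
    unfold lev
    apply Finset.card_le_card
    intro m hm
    rw [Finset.mem_filter] at hm
    rw [Finset.mem_filter, Finset.mem_filter]
    refine ⟨⟨hm.1, ?_⟩, ?_⟩
    · have h1 : (m : ℤ) ∣ ((x + j * AA E n : ℕ) : ℤ) - a (m * n ^ k) := by
        refine dvd_trans ?_ hm.2
        exact_mod_cast Dvd.intro (n ^ k) rfl
      exact (dvd_shift (Dk_dvd hm.1)).1 h1
    · refine dvd_trans ?_ hm.2
      exact_mod_cast Dvd.intro_left m rfl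
  refine (Finset.sum_le_sum h1).trans ?_
  rw [Finset.sum_comm]
  unfold top cnt
  rw [← smul_eq_mul, ← Finset.sum_const]
  refine Finset.sum_le_sum fun m _ => ?_
  rw [← Finset.card_filter]
  exact le_of_eq (count_class n (AA E n) (ex E n) k hn.pos (AA_coprime E n n hn le_rfl) hk x _)

/-- the set covered at stage `n` -/
def U (E : ℕ) (r : ℕ → ℤ) (n x : ℕ) : Prop :=
  ∃ m ∈ DD E (n + 1), n ∣ m ∧ (m : ℤ) ∣ (x : ℤ) - r m

lemma U_per (E : ℕ) (r : ℕ → ℤ) (n : ℕ) (hn : n.Prime ∧ n ≠ 2) (x : ℕ) :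
    U E r n (x + AA E n * n ^ ex E n) ↔ U E r n x := by
  rw [← AA_act E n hn]
  unfold U
  have : ∀ m ∈ DD E (n + 1), ((m : ℤ) ∣ ((x + AA E (n + 1) : ℕ) : ℤ) - r m) ↔
      ((m : ℤ) ∣ (x : ℤ) - r m) := by
    intro m hm
    have := dvd_shift (E := E) (n := n + 1) (x := x) (j := 1) (c := r m) (mem_DD.1 hm).1
    rw [one_mul] at this
    exact this
  constructor
  · rintro ⟨m, hm, h1, h2⟩; exact ⟨m, hm, h1, (this m hm).1 h2⟩
  · rintro ⟨m, hm, h1, h2⟩; exact ⟨m, hm, h1, (this m hm).2 h2⟩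

lemma ind_U_le (E : ℕ) (r : ℕ → ℤ) (n : ℕ) (hn : n.Prime ∧ n ≠ 2) (y : ℕ) :
    ind (U E r n) y ≤ ∑ k ∈ range (ex E n), (lev E n (k + 1) r y : ℝ) := by
  unfold ind
  split_ifs with h
  · obtain ⟨m, hm, h1, h2⟩ := h
    obtain ⟨k, hk, m', hm', rfl⟩ := decomp hn hm
    have hk0 : k ≠ 0 := by
      rintro rfl
      rw [pow_zero, mul_one] at h1
      have h3 := h1.trans (Dk_dvd hm')
      have h4 := AA_coprime E n n hn.1 le_rfl
      exact hn.1.one_lt.ne' (Nat.eq_one_of_dvd_coprimes h4 h3 dvd_rfl)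
    obtain ⟨k', rfl⟩ := Nat.exists_eq_succ_of_ne_zero hk0
    have h5 : 1 ≤ lev E n (k' + 1) r y := by
      unfold lev
      rw [Nat.one_le_iff_ne_zero, Finset.card_ne_zero]
      exact ⟨m', Finset.mem_filter.2 ⟨hm', h2⟩⟩
    have h6 : (1 : ℝ) ≤ (lev E n (k' + 1) r y : ℝ) := by exact_mod_cast h5
    refine h6.trans ?_
    exact Finset.single_le_sum (f := fun k => (lev E n (k + 1) r y : ℝ))
      (fun _ _ => Nat.cast_nonneg _) (Finset.mem_range.2 (by omega))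
  · exact Finset.sum_nonneg fun _ _ => Nat.cast_nonneg _

lemma al_bound (E : ℕ) (r : ℕ → ℤ) (n : ℕ) (hn : n.Prime ∧ n ≠ 2) (x : ℕ) :
    al (AA E n) (n ^ ex E n) (U E r n) x
      ≤ ∑ k ∈ range (ex E n), (1 / (n : ℝ)) ^ (k + 1) * (top E n (k + 1) r x : ℝ) := by
  unfold al
  have hB : (0 : ℝ) < ((n ^ ex E n : ℕ) : ℝ) := by exact_mod_cast pow_pos hn.1.pos _
  rw [div_le_iff₀ hB]
  calc ∑ j ∈ range (n ^ ex E n), ind (U E r n) (x + j * AA E n)
      ≤ ∑ j ∈ range (n ^ ex E n), ∑ k ∈ range (ex E n), (lev E n (k + 1) r (x + j * AA E n) : ℝ) :=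
        Finset.sum_le_sum fun j _ => ind_U_le E r n hn _
    _ = ∑ k ∈ range (ex E n), ((∑ j ∈ range (n ^ ex E n), lev E n (k + 1) r (x + j * AA E n) : ℕ)
          : ℝ) := by
        rw [Finset.sum_comm]; push_cast; rfl
    _ ≤ ∑ k ∈ range (ex E n), ((top E n (k + 1) r x * n ^ (ex E n - (k + 1)) : ℕ) : ℝ) := by
        apply Finset.sum_le_sum
        intro k hk
        exact_mod_cast lev_sum hn.1 (by have := Finset.mem_range.1 hk; omega) r x
    _ = (∑ k ∈ range (ex E n), (1 / (n : ℝ)) ^ (k + 1) * (top E n (k + 1) r x : ℝ))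
          * ((n ^ ex E n : ℕ) : ℝ) := by
        rw [Finset.sum_mul]
        apply Finset.sum_congr rfl
        intro k hk
        have hk' := Finset.mem_range.1 hk
        have hn0 : (n : ℝ) ≠ 0 := by exact_mod_cast hn.1.ne_zero
        have h2 : (n : ℝ) ^ ex E n = (n : ℝ) ^ (ex E n - (k + 1)) * (n : ℝ) ^ (k + 1) := by
          rw [← pow_add]; congr 1; omega
        push_cast
        rw [h2, one_div, inv_pow]
        field_simp

end Pool.Agent.Helper919.Cov
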