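import Mathlib
import Pool.Agent.Helper919.Cov.Induct

set_option autoImplicit false

namespace Pool.Agent.Helper919.Cov

open Finset
open scoped Classical

/-- thresholds -/
def TT (n : ℕ) : ℕ :=
  if n < 13 then 2 else if n < 17 then 3 else if n < 23 then 4 else if n < 29 then 6
  else if n < 43 then 8 else if n < 59 then 12 else if n < 83 then 16 else if n < 113 then 24
  else 32

/-- distortion parameters -/
noncomputable def del (n : ℕ) : ℝ :=
  if n = 3 then 1 / 3 else if n < 7 then 1 / 4 else if n < 200 then (TT n : ℝ) / ((n : ℝ) - 1)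
  else 1 / 4

lemma TT_bd (n : ℕ) (h : 7 ≤ n) (h2 : n < 200) : 2 ≤ TT n ∧ TT n + 2 ≤ n := by
  unfold TT
  split_ifs <;> omega

lemma del_spec (n : ℕ) (hn : n.Prime ∧ n ≠ 2) :
    0 < del n ∧ del n < 1 ∧ 1 / (n : ℝ) ≤ 1 - del n := by
  have h3 : 3 ≤ n := by
    have := hn.1.two_le
    rcases Nat.lt_or_ge 2 n with h | h
    · exact h
    · exact absurd (le_antisymm h this) hn.2
  have hn0 : (3 : ℝ) ≤ (n : ℝ) := by exact_mod_cast h3
  unfold del
  split_ifs with h1 h2 h4
  · rw [h1]; norm_num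
  · have h5 : (5 : ℝ) ≤ (n : ℝ) := by
      have : 5 ≤ n := by
        rcases Nat.lt_or_ge n 5 with h | h
        · exfalso
          have : n = 4 := by omega
          rw [this] at hn
          exact absurd hn.1 (by norm_num)
        · exact h
      exact_mod_cast this
    refine ⟨by norm_num, by norm_num, ?_⟩
    rw [div_le_iff₀ (by linarith)]
    linarith
  · obtain ⟨h5, h6⟩ := TT_bd n (by omega) h4
    have h5' : (2 : ℝ) ≤ (TT n : ℝ) := by exact_mod_cast h5
    have h6' : (TT n : ℝ) + 2 ≤ (n : ℝ) := by exact_mod_cast h6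
    refine ⟨by apply div_pos <;> linarith, by rw [div_lt_one] <;> linarith, ?_⟩
    rw [div_le_iff₀ (by linarith)]
    have h7 : (TT n : ℝ) / ((n : ℝ) - 1) ≤ ((n : ℝ) - 2) / ((n : ℝ) - 1) :=
      div_le_div_of_nonneg_right (by linarith) (by linarith)
    have h8 : 1 - ((n : ℝ) - 2) / ((n : ℝ) - 1) = 1 / ((n : ℝ) - 1) := by
      field_simp [show (n : ℝ) - 1 ≠ 0 by linarith]
      ring
    have h9 : 1 ≤ 1 / ((n : ℝ) - 1) * n := by
      rw [one_div, inv_mul_eq_div, le_div_iff₀ (by linarith)]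
      linarith
    nlinarith
  · have h5 : (7 : ℝ) ≤ (n : ℝ) := by exact_mod_cast (by omega : 7 ≤ n)
    refine ⟨by norm_num, by norm_num, ?_⟩
    rw [div_le_iff₀ (by linarith)]
    linarith

/-- tail probabilities of the model exponent -/
noncomputable def pii (n : ℕ) (δ : ℝ) (e k : ℕ) : ℝ :=
  if k = 0 then 1 else if k ≤ e then (1 / (n : ℝ)) ^ k / (1 - δ) else 0

/-- probabilities of the model exponent -/
noncomputable def pw (n : ℕ) (δ : ℝ) (e k : ℕ) : ℝ := pii n δ e k - pii n δ e (k + 1)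

lemma pw_nonneg (n : ℕ) (hn : n.Prime ∧ n ≠ 2) (e k : ℕ) : 0 ≤ pw n (del n) e k := by
  obtain ⟨h0, h1, h2⟩ := del_spec n hn
  have hn0 : (0 : ℝ) < (n : ℝ) := by exact_mod_cast hn.1.pos
  have hn1 : 1 / (n : ℝ) ≤ 1 := by
    rw [div_le_one hn0]; exact_mod_cast hn.1.one_lt.le
  have hn2 : 0 ≤ 1 / (n : ℝ) := by positivity
  have hd : 0 < 1 - del n := by linarith
  unfold pw pii
  by_cases hk : k = 0
  · subst hk
    simp only [if_true, zero_add, one_ne_zero, if_false, pow_one]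
    split_ifs
    · rw [sub_nonneg, div_le_one hd]; exact h2
    · norm_num
  · rw [if_neg hk, if_neg (Nat.succ_ne_zero k)]
    split_ifs with h3 h4 h4
    · rw [sub_nonneg]
      apply div_le_div_of_nonneg_right _ hd.le
      exact pow_le_pow_of_le_one hn2 hn1 (Nat.le_succ k)
    · rw [sub_zero]; positivity
    · omega
    · norm_num

lemma pw_sum (n : ℕ) (δ : ℝ) (e : ℕ) : ∑ K ∈ range (e + 1), pw n δ e K = 1 := by
  unfold pw
  rw [Finset.sum_range_sub']
  unfold pii
  simp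

/-- the comparison functional -/
noncomputable def Ph (E : ℕ) : ℕ → (ℕ → ℝ) → ℝ
  | 0, f => f 1
  | n + 1, f => if n.Prime ∧ n ≠ 2 then
      (if n = 5 then ∑ K ∈ range (ex E n + 1), pw n (del n) (ex E n) K * Ph E n (fun k => f (k + K))
       else ∑ K ∈ range (ex E n + 1),
        pw n (del n) (ex E n) K * Ph E n (fun k => f ((K + 1) * k)))
      else Ph E n f

lemma Ph_skip (E n : ℕ) (h : ¬ (n.Prime ∧ n ≠ 2)) (f : ℕ → ℝ) : Ph E (n + 1) f = Ph E n f := by
  show (if n.Prime ∧ n ≠ 2 then _ else _) = _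
  rw [if_neg h]

lemma Ph_five (E : ℕ) (f : ℕ → ℝ) : Ph E 6 f = ∑ K ∈ range (ex E 5 + 1),
    pw 5 (del 5) (ex E 5) K * Ph E 5 (fun k => f (k + K)) := by
  show (if (5 : ℕ).Prime ∧ 5 ≠ 2 then (if 5 = 5 then _ else _) else _) = _
  rw [if_pos (by norm_num), if_pos rfl]

lemma Ph_act (E n : ℕ) (h : n.Prime ∧ n ≠ 2) (h5 : n ≠ 5) (f : ℕ → ℝ) :
    Ph E (n + 1) f = ∑ K ∈ range (ex E n + 1),
      pw n (del n) (ex E n) K * Ph E n (fun k => f ((K + 1) * k)) := by
  show (if n.Prime ∧ n ≠ 2 then (if n = 5 then _ else _) else _) = _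
  rw [if_pos h, if_neg h5]

/-- the distorted weight -/
noncomputable def ww (E : ℕ) (r : ℕ → ℤ) : ℕ → ℕ → ℝ
  | 0, _ => 1
  | n + 1, x => if n.Prime ∧ n ≠ 2 then
      ww E r n x * hh (AA E n) (n ^ ex E n) (U E r n) (del n) x else ww E r n x

lemma ww_act (E : ℕ) (r : ℕ → ℤ) (n : ℕ) (h : n.Prime ∧ n ≠ 2) (x : ℕ) :
    ww E r (n + 1) x = ww E r n x * hh (AA E n) (n ^ ex E n) (U E r n) (del n) x := by
  show (if n.Prime ∧ n ≠ 2 then _ else _) = _
  rw [if_pos h]

lemma ww_skip (E : ℕ) (r : ℕ → ℤ) (n : ℕ) (h : ¬ (n.Prime ∧ n ≠ 2)) (x : ℕ) :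
    ww E r (n + 1) x = ww E r n x := by
  show (if n.Prime ∧ n ≠ 2 then _ else _) = _
  rw [if_neg h]

lemma ww_nonneg (E : ℕ) (r : ℕ → ℤ) (n x : ℕ) : 0 ≤ ww E r n x := by
  induction n with
  | zero => exact zero_le_one
  | succ n ih =>
    by_cases h : n.Prime ∧ n ≠ 2
    · rw [ww_act E r n h]
      exact mul_nonneg ih (hh_nonneg _ _ _ _ (del_spec n h).2.1 _)
    · rw [ww_skip E r n h]; exact ih

lemma ww_per (E : ℕ) (r : ℕ → ℤ) (n : ℕ) : ∀ x, ww E r n (x + AA E n) = ww E r n x := by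
  induction n with
  | zero => intro x; rfl
  | succ n ih =>
    intro x
    by_cases h : n.Prime ∧ n ≠ 2
    · rw [ww_act E r n h, ww_act E r n h, AA_act E n h,
        hh_per _ _ _ (U_per E r n h) _ x, Nat.mul_comm,
        per_mul (ww E r n) (AA E n) ih]
    · rw [ww_skip E r n h, ww_skip E r n h, AA_skip E n h]; exact ih x

lemma mn_transport (E : ℕ) (r : ℕ → ℤ) (Q n m : ℕ) (hnm : n ≤ m) (hm : AA E m ∣ Q)
    (F : ℕ → ℝ) (hF : ∀ x, F (x + AA E n) = F x) :
    mn Q (fun x => ww E r m x * F x) = mn Q (fun x => ww E r n x * F x) := by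
  induction m, hnm using Nat.le_induction with
  | base => rfl
  | succ m hle ih =>
    have h1 := ih ((AA_dvd_succ E m).trans hm)
    rw [← h1]
    by_cases h : m.Prime ∧ m ≠ 2
    · have e : (fun x => ww E r (m + 1) x * F x) = fun x =>
          ww E r m x * hh (AA E m) (m ^ ex E m) (U E r m) (del m) x * F x := by
        funext x; rw [ww_act E r m h]
      rw [e]
      obtain ⟨h2, h3, _⟩ := del_spec m h
      rw [AA_act E m h] at hm
      exact mn_stage_inv Q (AA E m) (m ^ ex E m) (pow_pos h.1.pos _) hm _ (U_per E r m h) _ h2 h3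
        (ww E r m) F (ww_per E r m) (per_dvd F _ _ hF (AA_dvd E n m hle))
    · have e : (fun x => ww E r (m + 1) x * F x) = fun x => ww E r m x * F x := by
        funext x; rw [ww_skip E r m h]
      rw [e]

lemma mass (E : ℕ) (r : ℕ → ℤ) (Q n : ℕ) (hQ : 0 < Q) (hn : AA E n ∣ Q) :
    mn Q (ww E r n) = 1 := by
  have h := mn_transport E r Q 0 n (Nat.zero_le n) hn (fun _ => 1) (fun _ => rfl)
  simp only [mul_one] at h
  have e : (fun x => ww E r n x) = ww E r n := rfl
  rw [e] at h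
  rw [h]
  have h2 : ∀ x, ww E r 0 x = 1 := fun _ => rfl
  simp only [h2]
  unfold mn
  rw [Finset.sum_const, card_range, nsmul_eq_mul, mul_one]
  have : (Q : ℝ) ≠ 0 := by positivity
  exact div_self this

end Pool.Agent.Helper919.Cov
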