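import Mathlib
import Pool.Agent.Helper919.Cov.Weight

set_option autoImplicit false

namespace Pool.Agent.Helper919.Cov

open Finset
open scoped Classical

lemma mono_cast {φ : ℝ → ℝ} (h : Good φ) {a b : ℕ} (hab : a ≤ b) : φ (a : ℝ) ≤ φ (b : ℝ) :=
  h.2 (Nat.cast_nonneg a : (0 : ℝ) ≤ a) (Nat.cast_nonneg b : (0 : ℝ) ≤ b) (by exact_mod_cast hab)

/-- pointwise fibre bound -/
lemma fibre_bound (E : ℕ) (r a : ℕ → ℤ) (n : ℕ) (hn : n.Prime ∧ n ≠ 2) (φ : ℝ → ℝ) (h : Good φ)
    (x : ℕ) :
    (∑ j ∈ range (n ^ ex E n), hh (AA E n) (n ^ ex E n) (U E r n) (del n) (x + j * AA E n)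
        * φ (cnt (DD E (n + 1)) a (x + j * AA E n))) / ((n ^ ex E n : ℕ) : ℝ)
      ≤ ∑ K ∈ range (ex E n + 1), pw n (del n) (ex E n) K *
          φ (∑ i ∈ range (K + 1), (top E n i a x : ℝ)) := by
  obtain ⟨hδ0, hδ1, _⟩ := del_spec n hn
  set B := n ^ ex E n with hBdef
  have hB : 0 < B := pow_pos hn.1.pos _
  have hBR : (0 : ℝ) < (B : ℝ) := by exact_mod_cast hB
  have hn0 : (n : ℝ) ≠ 0 := by exact_mod_cast hn.1.ne_zero
  set ρ : ℕ → ℝ := fun j => hh (AA E n) B (U E r n) (del n) (x + j * AA E n) / B with hρ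
  have hρ0 : ∀ j, 0 ≤ ρ j := fun j => div_nonneg (hh_nonneg _ _ _ _ hδ1 _) hBR.le
  have hρ1 : ∑ j ∈ range B, ρ j = 1 := by
    rw [hρ]
    simp only
    rw [← Finset.sum_div]
    exact hh_fib (AA E n) B hB (U E r n) (U_per E r n hn) (del n) hδ0 hδ1 x
  have hρle : ∀ j, ρ j ≤ 1 / (1 - del n) / B := fun j =>
    div_le_div_of_nonneg_right (hh_le _ _ _ _ hδ0 hδ1 _) hBR.le
  have h1 := chord_avg h B ρ hρ0 hρ1 (fun k => (top E n k a x : ℝ))
    (fun j k => (lev E n k a (x + j * AA E n) : ℝ)) (fun _ _ => Nat.cast_nonneg _)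
    (fun j k => by exact_mod_cast lev_le_top E n k a x j)
    (fun j => by exact_mod_cast lev_zero E n a x j)
    (pii n (del n) (ex E n)) (ex E n) (by
      intro k hk
      have h2 : ∑ j ∈ range B, ρ j * (lev E n (k + 1) a (x + j * AA E n) : ℝ)
          ≤ ∑ j ∈ range B, 1 / (1 - del n) / B * (lev E n (k + 1) a (x + j * AA E n) : ℝ) :=
        Finset.sum_le_sum fun j _ => mul_le_mul_of_nonneg_right (hρle j) (Nat.cast_nonneg _)
      refine h2.trans ?_
      rw [← Finset.mul_sum]
      have h3 : ∑ j ∈ range B, (lev E n (k + 1) a (x + j * AA E n) : ℝ)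
          ≤ (top E n (k + 1) a x : ℝ) * (n : ℝ) ^ (ex E n - (k + 1)) := by
        exact_mod_cast lev_sum hn.1 (show k + 1 ≤ ex E n from hk) a x
      have h4 : 0 ≤ 1 / (1 - del n) / (B : ℝ) :=
        div_nonneg (div_nonneg zero_le_one (by linarith)) hBR.le
      refine (mul_le_mul_of_nonneg_left h3 h4).trans (le_of_eq ?_)
      have h5 : (B : ℝ) = (n : ℝ) ^ (ex E n - (k + 1)) * (n : ℝ) ^ (k + 1) := by
        rw [← pow_add, hBdef]; push_cast; congr 1; omega
      have h6 : 1 - del n ≠ 0 := by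
        have : 0 < 1 - del n := by linarith
        exact this.ne'
      unfold pii
      rw [if_neg (Nat.succ_ne_zero k), if_pos (show k + 1 ≤ ex E n from hk), h5, one_div, one_div,
        inv_pow]
      field_simp)
  have habel := abel (pii n (del n) (ex E n))
    (fun K => φ (∑ i ∈ range (K + 1), (top E n i a x : ℝ))) (ex E n)
  have hp0 : pii n (del n) (ex E n) 0 = 1 := by unfold pii; simp
  have hpE : pii n (del n) (ex E n) (ex E n + 1) = 0 := by
    unfold pii
    rw [if_neg (Nat.succ_ne_zero _), if_neg (by omega)]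
  rw [hp0, hpE, zero_mul, add_zero, one_mul] at habel
  simp only [zero_add, Finset.sum_range_one] at habel
  unfold pw
  rw [habel]
  refine le_trans ?_ h1
  rw [Finset.sum_div]
  apply Finset.sum_le_sum
  intro j _
  have h7 : φ (cnt (DD E (n + 1)) a (x + j * AA E n))
      ≤ φ (∑ k ∈ range (ex E n + 1), (lev E n k a (x + j * AA E n) : ℝ)) := by
    have := mono_cast h (cnt_le_lev (E := E) hn a (x + j * AA E n))
    push_cast at this
    exact this
  calc hh (AA E n) B (U E r n) (del n) (x + j * AA E n)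
        * φ (cnt (DD E (n + 1)) a (x + j * AA E n)) / (B : ℝ)
      = ρ j * φ (cnt (DD E (n + 1)) a (x + j * AA E n)) := by
        rw [hρ]; ring
    _ ≤ _ := mul_le_mul_of_nonneg_left h7 (hρ0 j)

lemma cnt_per (E n : ℕ) (a : ℕ → ℤ) (x : ℕ) :
    cnt (DD E n) a (x + AA E n) = cnt (DD E n) a x := by
  unfold cnt
  congr 1
  apply Finset.filter_congr
  intro m hm
  have := dvd_shift (E := E) (n := n) (x := x) (j := 1) (c := a m) (mem_DD.1 hm).1
  rw [one_mul] at this
  exact this

lemma DD_zero (E : ℕ) : DD E 0 = {1} := by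
  ext m
  rw [mem_DD, Finset.mem_singleton]
  constructor
  · rintro ⟨h, _⟩; exact Nat.dvd_one.1 h
  · rintro rfl
    exact ⟨one_dvd _, by norm_num⟩

/-- the moment theorem: every convex monotone moment of the number of matched classes is at most
that of the comonotone model -/
theorem moment (E : ℕ) (r : ℕ → ℤ) (Q : ℕ) (hQ : 0 < Q) (n : ℕ) (hn : AA E n ∣ Q) :
    ∀ (φ : ℝ → ℝ), Good φ → ∀ a : ℕ → ℤ,
      mn Q (fun x => ww E r n x * φ (cnt (DD E n) a x)) ≤ Ph E n (fun k => φ (k : ℝ)) := by
  induction n with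
  | zero =>
    intro φ _ a
    have h1 : ∀ x, ww E r 0 x * φ (cnt (DD E 0) a x) = φ 1 := by
      intro x
      have h2 : cnt (DD E 0) a x = 1 := by
        unfold cnt
        rw [DD_zero, Finset.filter_singleton, if_pos (by simp)]
        rfl
      rw [h2]
      show (1 : ℝ) * φ ((1 : ℕ) : ℝ) = φ 1
      rw [one_mul, Nat.cast_one]
    simp only [h1]
    show _ ≤ φ ((1 : ℕ) : ℝ)
    unfold mn
    rw [Finset.sum_const, card_range, nsmul_eq_mul, Nat.cast_one]
    have : (Q : ℝ) ≠ 0 := by positivity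
    apply le_of_eq
    field_simp
  | succ n ih =>
    intro φ h a
    have ih' := ih ((AA_dvd_succ E n).trans hn)
    by_cases hp : n.Prime ∧ n ≠ 2
    swap
    · rw [Ph_skip E n hp]
      have e1 : DD E (n + 1) = DD E n := by unfold DD; rw [AA_skip E n hp]
      have e2 : (fun x => ww E r (n + 1) x * φ (cnt (DD E (n + 1)) a x))
          = fun x => ww E r n x * φ (cnt (DD E n) a x) := by
        funext x; rw [ww_skip E r n hp, e1]
      rw [e2]
      exact ih' φ h a
    have hB : 0 < n ^ ex E n := pow_pos hp.1.pos _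
    have e2 : (fun x => ww E r (n + 1) x * φ (cnt (DD E (n + 1)) a x))
        = fun x => ww E r n x * hh (AA E n) (n ^ ex E n) (U E r n) (del n) x
          * φ (cnt (DD E (n + 1)) a x) := by
      funext x; rw [ww_act E r n hp]
    have hQ2 : AA E n * n ^ ex E n ∣ Q := by rw [← AA_act E n hp]; exact hn
    have hperc : ∀ x, φ (cnt (DD E (n + 1)) a (x + Q)) = φ (cnt (DD E (n + 1)) a x) := by
      intro x
      rw [per_dvd (cnt (DD E (n + 1)) a) (AA E (n + 1)) Q (cnt_per E (n + 1) a) hn x]
    rw [e2, mn_stage Q (AA E n) (n ^ ex E n) hB hQ2 (U E r n) (U_per E r n hp) (del n)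
      (ww E r n) (fun x => φ (cnt (DD E (n + 1)) a x)) (ww_per E r n) hperc]
    have h1 : mn Q (fun x => ww E r n x * ((∑ j ∈ range (n ^ ex E n),
        hh (AA E n) (n ^ ex E n) (U E r n) (del n) (x + j * AA E n)
          * φ (cnt (DD E (n + 1)) a (x + j * AA E n))) / ((n ^ ex E n : ℕ) : ℝ)))
        ≤ mn Q (fun x => ww E r n x * ∑ K ∈ range (ex E n + 1), pw n (del n) (ex E n) K *
          φ (∑ i ∈ range (K + 1), (top E n i a x : ℝ))) :=
      mn_mono Q _ _ fun x => mul_le_mul_of_nonneg_left (fibre_bound E r a n hp φ h x)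
        (ww_nonneg E r n x)
    refine h1.trans ?_
    have e3 : (fun x => ww E r n x * ∑ K ∈ range (ex E n + 1), pw n (del n) (ex E n) K *
          φ (∑ i ∈ range (K + 1), (top E n i a x : ℝ)))
        = fun x => ∑ K ∈ range (ex E n + 1), pw n (del n) (ex E n) K *
          (ww E r n x * φ (∑ i ∈ range (K + 1), (top E n i a x : ℝ))) := by
      funext x
      rw [Finset.mul_sum]
      apply Finset.sum_congr rfl
      intro K _
      ring
    rw [e3, mn_sum]
    by_cases h5 : n = 5
    · subst h5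
      rw [Ph_five]
      apply Finset.sum_le_sum
      intro K _
      rw [mn_smul]
      apply mul_le_mul_of_nonneg_left _ (pw_nonneg 5 hp _ K)
      have h6 := ih' (fun y => φ (y + K)) (h.shift K (Nat.cast_nonneg K)) (fun m => a (m * 5 ^ 0))
      have e4 : (fun k : ℕ => φ (((k + K : ℕ) : ℝ))) = fun k : ℕ => φ ((k : ℝ) + K) := by
        funext k; push_cast; rfl
      rw [e4]
      refine le_trans (mn_mono Q _ _ fun x => ?_) h6
      apply mul_le_mul_of_nonneg_left _ (ww_nonneg E r 5 x)
      have h7 : ∑ i ∈ range (K + 1), (top E 5 i a x : ℝ) ≤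
          (cnt (DD E 5) (fun m => a (m * 5 ^ 0)) x : ℝ) + K := by
        rw [Finset.sum_range_succ', add_comm]
        apply add_le_add
        · have : top E 5 0 a x = cnt (DD E 5) (fun m => a (m * 5 ^ 0)) x := by
            unfold top Dk
            rw [if_neg (by simp)]
          rw [this]
        · have h8 : ∀ k ∈ range K, (top E 5 (k + 1) a x : ℝ) ≤ 1 := by
            intro k _
            have : top E 5 (k + 1) a x ≤ 1 := by
              unfold top Dk cnt
              rw [if_pos (by simp)]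
              exact (Finset.card_filter_le _ _).trans (le_of_eq (Finset.card_singleton 1))
            exact_mod_cast this
          refine (Finset.sum_le_sum h8).trans ?_
          rw [Finset.sum_const, card_range, nsmul_eq_mul, mul_one]
      exact h.2 (show (0:ℝ) ≤ _ from Finset.sum_nonneg fun _ _ => Nat.cast_nonneg _)
        (show (0:ℝ) ≤ _ by positivity) h7
    · rw [Ph_act E n hp h5]
      apply Finset.sum_le_sum
      intro K _
      rw [mn_smul]
      apply mul_le_mul_of_nonneg_left _ (pw_nonneg n hp _ K)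
      have e4 : (fun k : ℕ => φ ((((K + 1) * k : ℕ) : ℝ))) = fun k : ℕ => φ (((K : ℝ) + 1) * k) := by
        funext k; push_cast; rfl
      rw [e4]
      have h6 : ∀ i ∈ range (K + 1), mn Q (fun x => ww E r n x *
          φ (((K : ℝ) + 1) * (top E n i a x : ℝ))) ≤ Ph E n (fun k => φ (((K : ℝ) + 1) * k)) := by
        intro i _
        have h7 := ih' (fun y => φ (((K : ℝ) + 1) * y)) (h.scale _ (by positivity))
          (fun m => a (m * n ^ i))
        have h8 : ∀ x, top E n i a x = cnt (DD E n) (fun m => a (m * n ^ i)) x := by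
          intro x
          unfold top Dk
          rw [if_neg (by simp [h5])]
        simp only [h8]
        exact h7
      calc mn Q (fun x => ww E r n x * φ (∑ i ∈ range (K + 1), (top E n i a x : ℝ)))
          ≤ mn Q (fun x => (1 / ((K : ℝ) + 1)) * ∑ i ∈ range (K + 1), ww E r n x *
              φ (((K : ℝ) + 1) * (top E n i a x : ℝ))) := by
            apply mn_mono
            intro x
            have := mul_le_mul_of_nonneg_left (jensen h (fun i => (top E n i a x : ℝ))
              (fun _ => Nat.cast_nonneg _) K) (ww_nonneg E r n x)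
            refine this.trans (le_of_eq ?_)
            rw [Finset.mul_sum, Finset.mul_sum, Finset.mul_sum]
            apply Finset.sum_congr rfl
            intro i _
            ring
        _ = (1 / ((K : ℝ) + 1)) * ∑ i ∈ range (K + 1), mn Q (fun x => ww E r n x *
              φ (((K : ℝ) + 1) * (top E n i a x : ℝ))) := by
            rw [mn_smul, mn_sum]
        _ ≤ (1 / ((K : ℝ) + 1)) * ∑ i ∈ range (K + 1), Ph E n (fun k => φ (((K : ℝ) + 1) * k)) :=
            mul_le_mul_of_nonneg_left (Finset.sum_le_sum h6) (by positivity)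
        _ = _ := by
            rw [Finset.sum_const, card_range, nsmul_eq_mul]
            push_cast
            field_simp

lemma geom_bd (n : ℕ) (hn : 2 ≤ n) (e : ℕ) :
    ∑ k ∈ range e, (1 / (n : ℝ)) ^ (k + 1) ≤ 1 / ((n : ℝ) - 1) := by
  have hn2 : (2 : ℝ) ≤ (n : ℝ) := by exact_mod_cast hn
  have h1 : ∀ e : ℕ, ∑ k ∈ range e, (1 / (n : ℝ)) ^ (k + 1)
      = 1 / ((n : ℝ) - 1) - (1 / (n : ℝ)) ^ e / ((n : ℝ) - 1) := by
    intro e
    induction e with
    | zero => simp
    | succ e ih =>
      rw [Finset.sum_range_succ, ih, pow_succ]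
      have h2 : (n : ℝ) ≠ 0 := by linarith
      have h3 : (n : ℝ) - 1 ≠ 0 := by
        have : 0 < (n : ℝ) - 1 := by linarith
        exact this.ne'
      field_simp
      ring
  rw [h1]
  have : 0 ≤ (1 / (n : ℝ)) ^ e / ((n : ℝ) - 1) :=
    div_nonneg (by positivity) (by linarith)
  linarith

/-- cost of a stage -/
noncomputable def cost (E n : ℕ) : ℝ :=
  Ph E n (fun k => max ((k : ℝ) - del n * ((n : ℝ) - 1)) 0) / (((n : ℝ) - 1) * (1 - del n))

lemma good_max (t : ℝ) : Good (fun y => max (y - t) 0) := by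
  constructor
  · have h1 : ConvexOn ℝ (Set.Ici (0:ℝ)) (fun y : ℝ => y - t) :=
      (convexOn_id (convex_Ici 0)).sub (concaveOn_const t (convex_Ici 0))
    exact h1.sup (convexOn_const 0 (convex_Ici 0))
  · intro x _ y _ hxy
    exact max_le_max (by linarith) le_rfl

theorem stage_cost (E : ℕ) (r : ℕ → ℤ) (Q : ℕ) (hQ : 0 < Q) (n : ℕ) (hn : AA E (n + 1) ∣ Q)
    (hp : n.Prime ∧ n ≠ 2) (h7 : 7 ≤ n) :
    mn Q (fun x => ww E r (n + 1) x * ind (U E r n) x) ≤ cost E n := by
  have hB : 0 < n ^ ex E n := pow_pos hp.1.pos _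
  have hQ2 : AA E n * n ^ ex E n ∣ Q := by rw [← AA_act E n hp]; exact hn
  have e2 : (fun x => ww E r (n + 1) x * ind (U E r n) x)
      = fun x => ww E r n x * hh (AA E n) (n ^ ex E n) (U E r n) (del n) x * ind (U E r n) x := by
    funext x; rw [ww_act E r n hp]
  obtain ⟨h0, h1, _⟩ := del_spec n hp
  rw [e2, mn_stage_cost Q (AA E n) (n ^ ex E n) hB hQ2 (U E r n) (U_per E r n hp) (del n) h0 h1
    (ww E r n) (ww_per E r n)]
  have hn1 : (0 : ℝ) < (n : ℝ) - 1 := by
    have : (7 : ℝ) ≤ (n : ℝ) := by exact_mod_cast h7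
    linarith
  have hd : 0 < 1 - del n := by linarith
  set t := del n * ((n : ℝ) - 1) with ht
  have ht0 : 0 ≤ t := mul_nonneg h0.le hn1.le
  have hg := geom_bd n (by omega) (ex E n)
  have hpt : ∀ x, ww E r n x * (max (al (AA E n) (n ^ ex E n) (U E r n) x - del n) 0
        / (1 - del n))
      ≤ (1 / (1 - del n)) * ∑ k ∈ range (ex E n), (1 / (n : ℝ)) ^ (k + 1) *
          (ww E r n x * max ((top E n (k + 1) r x : ℝ) - t) 0) := by
    intro x
    have h2 := al_bound E r n hp x
    have h3 : al (AA E n) (n ^ ex E n) (U E r n) x - del n ≤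
        ∑ k ∈ range (ex E n), (1 / (n : ℝ)) ^ (k + 1) * max ((top E n (k + 1) r x : ℝ) - t) 0 := by
      have h4 : ∑ k ∈ range (ex E n), (1 / (n : ℝ)) ^ (k + 1) * t ≤ del n := by
        rw [← Finset.sum_mul]
        calc (∑ k ∈ range (ex E n), (1 / (n : ℝ)) ^ (k + 1)) * t ≤ 1 / ((n : ℝ) - 1) * t :=
              mul_le_mul_of_nonneg_right hg ht0
          _ = del n := by rw [ht]; field_simp
      calc al (AA E n) (n ^ ex E n) (U E r n) x - del n
          ≤ ∑ k ∈ range (ex E n), (1 / (n : ℝ)) ^ (k + 1) * (top E n (k + 1) r x : ℝ)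
            - ∑ k ∈ range (ex E n), (1 / (n : ℝ)) ^ (k + 1) * t := by linarith
        _ = ∑ k ∈ range (ex E n), (1 / (n : ℝ)) ^ (k + 1) * ((top E n (k + 1) r x : ℝ) - t) := by
            rw [← Finset.sum_sub_distrib]
            apply Finset.sum_congr rfl
            intro k _
            ring
        _ ≤ _ := Finset.sum_le_sum fun k _ =>
            mul_le_mul_of_nonneg_left (le_max_left _ _) (by positivity)
    have h5 : max (al (AA E n) (n ^ ex E n) (U E r n) x - del n) 0 ≤
        ∑ k ∈ range (ex E n), (1 / (n : ℝ)) ^ (k + 1) * max ((top E n (k + 1) r x : ℝ) - t) 0 :=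
      max_le h3 (Finset.sum_nonneg fun k _ => mul_nonneg (by positivity) (le_max_right _ _))
    calc ww E r n x * (max (al (AA E n) (n ^ ex E n) (U E r n) x - del n) 0 / (1 - del n))
        ≤ ww E r n x * ((∑ k ∈ range (ex E n), (1 / (n : ℝ)) ^ (k + 1) *
            max ((top E n (k + 1) r x : ℝ) - t) 0) / (1 - del n)) :=
          mul_le_mul_of_nonneg_left (div_le_div_of_nonneg_right h5 hd.le) (ww_nonneg E r n x)
      _ = _ := by
          rw [Finset.mul_sum, Finset.sum_div, Finset.mul_sum]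
          apply Finset.sum_congr rfl
          intro k _
          ring
  refine (mn_mono Q _ _ hpt).trans ?_
  rw [mn_smul, mn_sum]
  have h6 : ∀ k ∈ range (ex E n), mn Q (fun x => (1 / (n : ℝ)) ^ (k + 1) *
      (ww E r n x * max ((top E n (k + 1) r x : ℝ) - t) 0))
      ≤ (1 / (n : ℝ)) ^ (k + 1) * Ph E n (fun k => max ((k : ℝ) - t) 0) := by
    intro k _
    rw [mn_smul]
    apply mul_le_mul_of_nonneg_left _ (by positivity)
    have h8 : ∀ x, top E n (k + 1) r x = cnt (DD E n) (fun m => r (m * n ^ (k + 1))) x := by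
      intro x
      unfold top Dk
      rw [if_neg (by omega)]
    simp only [h8]
    exact moment E r Q hQ n ((AA_dvd_succ E n).trans hn) _ (good_max t) _
  have hPh : 0 ≤ Ph E n (fun k => max ((k : ℝ) - t) 0) := by
    refine le_trans ?_ (moment E r Q hQ n ((AA_dvd_succ E n).trans hn) _ (good_max t) r)
    exact mn_nonneg Q _ fun x => mul_nonneg (ww_nonneg E r n x) (le_max_right _ _)
  calc 1 / (1 - del n) * ∑ k ∈ range (ex E n), mn Q (fun x => (1 / (n : ℝ)) ^ (k + 1) *
        (ww E r n x * max ((top E n (k + 1) r x : ℝ) - t) 0))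
      ≤ 1 / (1 - del n) * ∑ k ∈ range (ex E n),
        (1 / (n : ℝ)) ^ (k + 1) * Ph E n (fun k => max ((k : ℝ) - t) 0) :=
        mul_le_mul_of_nonneg_left (Finset.sum_le_sum h6) (by positivity)
    _ = 1 / (1 - del n) * ((∑ k ∈ range (ex E n), (1 / (n : ℝ)) ^ (k + 1)) *
        Ph E n (fun k => max ((k : ℝ) - t) 0)) := by rw [Finset.sum_mul]
    _ ≤ 1 / (1 - del n) * (1 / ((n : ℝ) - 1) * Ph E n (fun k => max ((k : ℝ) - t) 0)) := by
        apply mul_le_mul_of_nonneg_left _ (by positivity)
        exact mul_le_mul_of_nonneg_right hg hPh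
    _ = cost E n := by
        unfold cost
        rw [← ht]
        field_simp

/-- small primes cost nothing -/
theorem stage_cost_small (E : ℕ) (r : ℕ → ℤ) (Q : ℕ) (n : ℕ) (hn : AA E (n + 1) ∣ Q)
    (hp : n.Prime ∧ n ≠ 2) (h7 : n < 7) :
    mn Q (fun x => ww E r (n + 1) x * ind (U E r n) x) ≤ 0 := by
  have hB : 0 < n ^ ex E n := pow_pos hp.1.pos _
  have hQ2 : AA E n * n ^ ex E n ∣ Q := by rw [← AA_act E n hp]; exact hn
  have e2 : (fun x => ww E r (n + 1) x * ind (U E r n) x)
      = fun x => ww E r n x * hh (AA E n) (n ^ ex E n) (U E r n) (del n) x * ind (U E r n) x := by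
    funext x; rw [ww_act E r n hp]
  obtain ⟨h0, h1, _⟩ := del_spec n hp
  rw [e2, mn_stage_cost Q (AA E n) (n ^ ex E n) hB hQ2 (U E r n) (U_per E r n hp) (del n) h0 h1
    (ww E r n) (ww_per E r n)]
  have hn35 : n = 3 ∨ n = 5 := by
    have h2 := hp.1.two_le
    have h3 := hp.2
    have h4 : n ≠ 4 := by rintro rfl; exact absurd hp.1 (by norm_num)
    have h6 : n ≠ 6 := by rintro rfl; exact absurd hp.1 (by norm_num)
    omega
  have key : ∀ x, al (AA E n) (n ^ ex E n) (U E r n) x ≤ del n := by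
    intro x
    refine (al_bound E r n hp x).trans ?_
    rcases hn35 with rfl | rfl
    · have h2 : top E 3 1 r x ≤ 1 := by
        unfold top Dk cnt
        rw [if_neg (by norm_num)]
        refine (Finset.card_filter_le _ _).trans ?_
        have : DD E 3 = {1} := by
          ext m
          rw [mem_DD, AA3, Finset.mem_singleton]
          constructor
          · rintro ⟨h, _⟩; exact Nat.dvd_one.1 h
          · rintro rfl
            exact ⟨one_dvd _, by norm_num⟩
        rw [this]
        exact le_of_eq (Finset.card_singleton 1)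
      have h3 : (top E 3 1 r x : ℝ) ≤ 1 := by exact_mod_cast h2
      have h4 : ex E 3 = 1 := by simp [ex]
      rw [h4, Finset.sum_range_one]
      have h5 : del 3 = 1 / 3 := by simp [del]
      rw [h5]
      norm_num
      linarith
    · have h2 : ∀ k ∈ range (ex E 5), (1 / ((5 : ℕ) : ℝ)) ^ (k + 1) * (top E 5 (k + 1) r x : ℝ)
          ≤ (1 / ((5 : ℕ) : ℝ)) ^ (k + 1) := by
        intro k _
        have h3 : top E 5 (k + 1) r x ≤ 1 := by
          unfold top Dk cnt
          rw [if_pos (by simp)]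
          exact (Finset.card_filter_le _ _).trans (le_of_eq (Finset.card_singleton 1))
        have h4 : (top E 5 (k + 1) r x : ℝ) ≤ 1 := by exact_mod_cast h3
        have h5 : (0 : ℝ) ≤ (1 / ((5 : ℕ) : ℝ)) ^ (k + 1) := by positivity
        nlinarith
      refine (Finset.sum_le_sum h2).trans ((geom_bd 5 (by norm_num) _).trans ?_)
      have h5 : del 5 = 1 / 4 := by simp [del]
      rw [h5]
      norm_num
  have h8 : ∀ x, ww E r n x * (max (al (AA E n) (n ^ ex E n) (U E r n) x - del n) 0
        / (1 - del n)) = 0 := by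
    intro x
    rw [max_eq_right (by linarith [key x])]
    ring
  simp only [h8]
  unfold mn
  simp

end Pool.Agent.Helper919.Cov
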