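import Mathlib
import Pool.Agent.Helper919.Cov.Moment

set_option autoImplicit false

namespace Pool.Agent.Helper919.Cov

open Finset
open scoped Classical

/-- primes counted in the cost -/
def pr7 (N : ℕ) : Finset ℕ := (range N).filter (fun n => n.Prime ∧ 7 ≤ n)

theorem exists_uncovered (E : ℕ) (r : ℕ → ℤ) (N : ℕ) (h : ∑ n ∈ pr7 N, cost E n < 1) :
    ∃ x : ℕ, ∀ n < N, (n.Prime ∧ n ≠ 2) → ¬ U E r n x := by
  by_contra hcon
  push Not at hcon
  set Q := AA E N with hQdef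
  have hQ : 0 < Q := AA_pos E N
  have h1 : mn Q (ww E r N) = 1 := mass E r Q N hQ dvd_rfl
  set P := (range N).filter (fun n => n.Prime ∧ n ≠ 2) with hP
  have h2 : mn Q (ww E r N) ≤ ∑ n ∈ P, mn Q (fun x => ww E r N x * ind (U E r n) x) := by
    rw [← mn_sum]
    apply mn_mono
    intro x
    obtain ⟨n, hn, hp, hU⟩ := hcon x
    have h3 : ind (U E r n) x = 1 := by unfold ind; rw [if_pos hU]
    have h4 : ww E r N x = ww E r N x * ind (U E r n) x := by rw [h3, mul_one]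
    have hmem : n ∈ P := by rw [hP, Finset.mem_filter, Finset.mem_range]; exact ⟨hn, hp⟩
    have h5 := Finset.single_le_sum (f := fun n => ww E r N x * ind (U E r n) x)
      (fun i _ => mul_nonneg (ww_nonneg E r N x) (ind_nonneg _ _)) hmem
    simp only [h3, mul_one] at h5
    exact h5
  have h3 : ∀ n ∈ P, mn Q (fun x => ww E r N x * ind (U E r n) x)
      ≤ if 7 ≤ n then cost E n else 0 := by
    intro n hn
    rw [hP, Finset.mem_filter, Finset.mem_range] at hn
    have hdv : AA E (n + 1) ∣ Q := AA_dvd E (n + 1) N hn.1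
    have hper : ∀ x, ind (U E r n) (x + AA E (n + 1)) = ind (U E r n) x := by
      intro x
      unfold ind
      rw [AA_act E n hn.2]
      simp only [U_per E r n hn.2 x]
    rw [mn_transport E r Q (n + 1) N hn.1 dvd_rfl (ind (U E r n)) hper]
    split_ifs with h7
    · exact stage_cost E r Q hQ n hdv hn.2 h7
    · exact stage_cost_small E r Q n hdv hn.2 (by omega)
  have h4 : ∑ n ∈ P, (if 7 ≤ n then cost E n else 0) = ∑ n ∈ pr7 N, cost E n := by
    rw [← Finset.sum_filter, hP, Finset.filter_filter]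
    unfold pr7
    congr 1
    apply Finset.filter_congr
    intro n _
    constructor
    · rintro ⟨⟨h1, _⟩, h2⟩; exact ⟨h1, h2⟩
    · rintro ⟨h1, h2⟩; exact ⟨⟨h1, by omega⟩, h2⟩
  have h5 := Finset.sum_le_sum h3
  rw [h4] at h5
  linarith

/-- a number dividing `AA E N` is covered at the stage of its last prime -/
lemma U_of_dvd (E : ℕ) (r : ℕ → ℤ) (N m x : ℕ) (hm2 : 2 ≤ m) (h15 : ¬ 15 ∣ m)
    (hm : m ∣ AA E N) (hx : (m : ℤ) ∣ (x : ℤ) - r m) :
    ∃ n < N, (n.Prime ∧ n ≠ 2) ∧ U E r n x := by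
  induction N with
  | zero =>
    have : m ∣ 1 := hm
    have := Nat.dvd_one.1 this
    omega
  | succ n ih =>
    by_cases h1 : m ∣ AA E n
    · obtain ⟨k, hk, h2⟩ := ih h1
      exact ⟨k, by omega, h2⟩
    · by_cases hp : n.Prime ∧ n ≠ 2
      · refine ⟨n, by omega, hp, m, mem_DD.2 ⟨hm, h15⟩, ?_, hx⟩
        by_contra h2
        apply h1
        rw [AA_act E n hp] at hm
        have h3 : Nat.Coprime m (n ^ ex E n) :=
          Nat.Coprime.pow_right _ ((Nat.Prime.coprime_iff_not_dvd hp.1).2 h2).symm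
        exact h3.dvd_of_dvd_mul_right hm
      · rw [AA_skip E n hp] at hm
        exact absurd hm h1

lemma pow_dvd_AA (E p N : ℕ) (hp : p.Prime ∧ p ≠ 2) (h : p < N) : p ^ ex E p ∣ AA E N := by
  refine dvd_trans ?_ (AA_dvd E (p + 1) N h)
  rw [AA_act E p hp]
  exact Dvd.intro_left _ rfl

lemma dvd_AA (E N m : ℕ) (hm0 : m ≠ 0) (hm2 : ¬ 2 ∣ m) (hm9 : ¬ 9 ∣ m) (hmE : m ≤ E)
    (hmN : m < N) : m ∣ AA E N := by
  rw [← Nat.factorization_prime_le_iff_dvd hm0 (AA_pos E N).ne']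
  intro p hp
  by_cases hpm : p ∣ m
  · have hp2 : p ≠ 2 := by rintro rfl; exact hm2 hpm
    have hpN : p < N := lt_of_le_of_lt (Nat.le_of_dvd (Nat.pos_of_ne_zero hm0) hpm) hmN
    have h1 := (Nat.Prime.pow_dvd_iff_le_factorization hp (AA_pos E N).ne').1
      (pow_dvd_AA E p N ⟨hp, hp2⟩ hpN)
    refine le_trans ?_ h1
    unfold ex
    split_ifs with h3
    · by_contra hcon
      apply hm9
      have h4 : 2 ≤ m.factorization p := by omega
      have h5 := (Nat.Prime.pow_dvd_iff_le_factorization hp hm0).2 h4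
      rw [h3] at h5
      exact h5
    · have h6 : m.factorization p < m := Nat.factorization_lt p hm0
      omega
  · rw [Nat.factorization_eq_zero_of_not_dvd hpm]
    exact Nat.zero_le _

/-- reduction of the covering statement to the numerical estimate -/
theorem reduce (hnum : ∀ M : ℕ, ∃ N E, M ≤ N ∧ M ≤ E ∧ ∑ n ∈ pr7 N, cost E n < 1)
    (S : Finset ℕ) (r : ℕ → ℤ)
    (h2 : ∀ m ∈ S, 2 ≤ m) (hodd : ∀ m ∈ S, ¬ (2 ∣ m)) (h9 : ∀ m ∈ S, ¬ (9 ∣ m))
    (hcov : ∀ x : ℤ, ∃ m ∈ S, x ≡ r m [ZMOD (m : ℤ)]) : ∃ m ∈ S, 15 ∣ m := by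
  by_contra hcon
  push Not at hcon
  set M := S.sup id + 1 with hM
  obtain ⟨N, E, hN, hE, hlt⟩ := hnum M
  obtain ⟨x, hx⟩ := exists_uncovered E r N hlt
  obtain ⟨m, hm, hmx⟩ := hcov x
  have hmM : m < M := by
    have : m ≤ S.sup id := Finset.le_sup (f := id) hm
    omega
  have h3 := dvd_AA E N m (by have := h2 m hm; omega) (hodd m hm) (h9 m hm) (by omega) (by omega)
  have h4 : (m : ℤ) ∣ (x : ℤ) - r m := (Int.modEq_iff_dvd.1 hmx.symm)
  obtain ⟨n, hn, hp, hU⟩ := U_of_dvd E r N m x (h2 m hm) (hcon m hm) h3 h4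
  exact hx n hn hp hU

end Pool.Agent.Helper919.Cov
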