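import Mathlib
import Pool.Agent.Helper919.Cov.Reduce

set_option autoImplicit false

namespace Pool.Agent.Helper919.Cov

open Finset
open scoped Classical

lemma Ph_mono (E n : ℕ) : ∀ f g : ℕ → ℝ, (∀ k, 1 ≤ k → f k ≤ g k) → Ph E n f ≤ Ph E n g := by
  induction n with
  | zero => intro f g h; exact h 1 le_rfl
  | succ n ih =>
    intro f g h
    by_cases hp : n.Prime ∧ n ≠ 2
    · by_cases h5 : n = 5
      · subst h5
        rw [Ph_five, Ph_five]
        apply Finset.sum_le_sum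
        intro K _
        apply mul_le_mul_of_nonneg_left _ (pw_nonneg 5 hp _ K)
        exact ih _ _ fun k hk => h _ (by omega)
      · rw [Ph_act E n hp h5, Ph_act E n hp h5]
        apply Finset.sum_le_sum
        intro K _
        apply mul_le_mul_of_nonneg_left _ (pw_nonneg n hp _ K)
        exact ih _ _ fun k hk => h _ (Nat.mul_pos (Nat.succ_pos K) hk)
    · rw [Ph_skip E n hp, Ph_skip E n hp]
      exact ih f g h

lemma Ph_congr (E n : ℕ) (f g : ℕ → ℝ) (h : ∀ k, 1 ≤ k → f k = g k) : Ph E n f = Ph E n g :=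
  le_antisymm (Ph_mono E n f g fun k hk => (h k hk).le) (Ph_mono E n g f fun k hk => (h k hk).ge)

lemma Ph_add (E n : ℕ) : ∀ f g : ℕ → ℝ, Ph E n (fun k => f k + g k) = Ph E n f + Ph E n g := by
  induction n with
  | zero => intro f g; rfl
  | succ n ih =>
    intro f g
    by_cases hp : n.Prime ∧ n ≠ 2
    · by_cases h5 : n = 5
      · subst h5
        rw [Ph_five, Ph_five, Ph_five, ← Finset.sum_add_distrib]
        apply Finset.sum_congr rfl
        intro K _
        rw [ih (fun k => f (k + K)) (fun k => g (k + K))]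
        ring
      · rw [Ph_act E n hp h5, Ph_act E n hp h5, Ph_act E n hp h5, ← Finset.sum_add_distrib]
        apply Finset.sum_congr rfl
        intro K _
        rw [ih (fun k => f ((K + 1) * k)) (fun k => g ((K + 1) * k))]
        ring
    · rw [Ph_skip E n hp, Ph_skip E n hp, Ph_skip E n hp]
      exact ih f g

lemma Ph_smul (E n : ℕ) : ∀ (c : ℝ) (f : ℕ → ℝ), Ph E n (fun k => c * f k) = c * Ph E n f := by
  induction n with
  | zero => intro c f; rfl
  | succ n ih =>
    intro c f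
    by_cases hp : n.Prime ∧ n ≠ 2
    · by_cases h5 : n = 5
      · subst h5
        rw [Ph_five, Ph_five, Finset.mul_sum]
        apply Finset.sum_congr rfl
        intro K _
        rw [ih c (fun k => f (k + K))]
        ring
      · rw [Ph_act E n hp h5, Ph_act E n hp h5, Finset.mul_sum]
        apply Finset.sum_congr rfl
        intro K _
        rw [ih c (fun k => f ((K + 1) * k))]
        ring
    · rw [Ph_skip E n hp, Ph_skip E n hp]
      exact ih c f

lemma Ph_const (E n : ℕ) (c : ℝ) : Ph E n (fun _ => c) = c := by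
  induction n with
  | zero => rfl
  | succ n ih =>
    by_cases hp : n.Prime ∧ n ≠ 2
    · by_cases h5 : n = 5
      · subst h5
        rw [Ph_five]
        simp only [ih]
        rw [← Finset.sum_mul, pw_sum, one_mul]
      · rw [Ph_act E n hp h5]
        simp only [ih]
        rw [← Finset.sum_mul, pw_sum, one_mul]
    · rw [Ph_skip E n hp]; exact ih

lemma Ph_zero (E n : ℕ) : Ph E n (fun _ => 0) = 0 := Ph_const E n 0

lemma Ph_nonneg (E n : ℕ) (f : ℕ → ℝ) (h : ∀ k, 1 ≤ k → 0 ≤ f k) : 0 ≤ Ph E n f := by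
  rw [← Ph_zero E n]
  exact Ph_mono E n _ _ h

lemma Ph_sum (E n : ℕ) {ι : Type} (s : Finset ι) (f : ι → ℕ → ℝ) :
    Ph E n (fun k => ∑ i ∈ s, f i k) = ∑ i ∈ s, Ph E n (f i) := by
  induction s using Finset.induction_on with
  | empty => simp only [Finset.sum_empty]; exact Ph_zero E n
  | insert i s hi ih =>
    simp only [Finset.sum_insert hi]
    rw [Ph_add E n (f i) (fun k => ∑ i ∈ s, f i k), ih]

/-- Abel form of a sum against the model weights -/
lemma pw_abel (n : ℕ) (δ : ℝ) (e : ℕ) (g : ℕ → ℝ) :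
    ∑ K ∈ range (e + 1), pw n δ e K * g K = g 0 + ∑ k ∈ range e,
      (1 / (n : ℝ)) ^ (k + 1) / (1 - δ) * (g (k + 1) - g k) := by
  have h1 := abel (pii n δ e) g e
  have hp0 : pii n δ e 0 = 1 := by unfold pii; simp
  have hpE : pii n δ e (e + 1) = 0 := by
    unfold pii
    rw [if_neg (Nat.succ_ne_zero _), if_neg (by omega)]
  rw [hp0, hpE, zero_mul, add_zero, one_mul] at h1
  unfold pw
  rw [h1]
  congr 1
  apply Finset.sum_congr rfl
  intro k hk
  have hk' := Finset.mem_range.1 hk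
  unfold pii
  rw [if_neg (Nat.succ_ne_zero _), if_pos (by omega)]

/-- first moment -/
noncomputable def m1 (E n : ℕ) : ℝ := Ph E n (fun k => (k : ℝ))
/-- second moment -/
noncomputable def m2 (E n : ℕ) : ℝ := Ph E n (fun k => (k : ℝ) ^ 2)
/-- point masses -/
noncomputable def pm (E n v : ℕ) : ℝ := Ph E n (fun k => if k = v then 1 else 0)

lemma m1_nonneg (E n : ℕ) : 0 ≤ m1 E n := Ph_nonneg E n _ fun k _ => Nat.cast_nonneg k
lemma m2_nonneg (E n : ℕ) : 0 ≤ m2 E n := Ph_nonneg E n _ fun k _ => by positivity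
lemma pm_nonneg (E n v : ℕ) : 0 ≤ pm E n v := Ph_nonneg E n _ fun k _ => by split_ifs <;> norm_num

lemma m1_step (E n : ℕ) (hp : n.Prime) (h7 : 7 ≤ n) :
    m1 E (n + 1) ≤ m1 E n * (1 + 1 / (((n : ℝ) - 1) * (1 - del n))) := by
  have hp' : n.Prime ∧ n ≠ 2 := ⟨hp, by omega⟩
  obtain ⟨h0, h1, _⟩ := del_spec n hp'
  have hn1 : (0 : ℝ) < (n : ℝ) - 1 := by
    have : (7 : ℝ) ≤ (n : ℝ) := by exact_mod_cast h7
    linarith
  have hd : 0 < 1 - del n := by linarith
  unfold m1
  rw [Ph_act E n hp' (by omega)]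
  have e1 : ∀ K ∈ range (ex E n + 1), pw n (del n) (ex E n) K *
      Ph E n (fun k => (((K + 1) * k : ℕ) : ℝ)) = pw n (del n) (ex E n) K *
        (((K : ℝ) + 1) * Ph E n (fun k => (k : ℝ))) := by
    intro K _
    congr 1
    rw [← Ph_smul]
    congr 1
    funext k
    push_cast
    ring
  rw [Finset.sum_congr rfl e1, pw_abel n (del n) (ex E n)
    (fun K => ((K : ℝ) + 1) * Ph E n (fun k => (k : ℝ)))]
  have e2 : ∀ k ∈ range (ex E n), (1 / (n : ℝ)) ^ (k + 1) / (1 - del n) *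
      ((((k + 1 : ℕ) : ℝ) + 1) * Ph E n (fun k => (k : ℝ)) - ((k : ℝ) + 1) *
        Ph E n (fun k => (k : ℝ)))
      = (1 / (n : ℝ)) ^ (k + 1) * (Ph E n (fun k => (k : ℝ)) / (1 - del n)) := by
    intro k _
    push_cast
    ring
  rw [Finset.sum_congr rfl e2, ← Finset.sum_mul]
  have h2 := geom_bd n (by omega) (ex E n)
  have h3 : 0 ≤ Ph E n (fun k => (k : ℝ)) / (1 - del n) := div_nonneg (m1_nonneg E n) hd.le
  have h4 := mul_le_mul_of_nonneg_right h2 h3
  refine (add_le_add_right h4 _).trans (le_of_eq ?_)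
  push_cast
  field_simp
  ring

lemma geom2_bd (n : ℕ) (hn : 2 ≤ n) (e : ℕ) :
    ∑ k ∈ range e, (2 * (k : ℝ) + 3) * (1 / (n : ℝ)) ^ (k + 1)
      ≤ (3 * (n : ℝ) - 1) / ((n : ℝ) - 1) ^ 2 := by
  have hn2 : (2 : ℝ) ≤ (n : ℝ) := by exact_mod_cast hn
  have h2 : (n : ℝ) ≠ 0 := by linarith
  have h3 : (n : ℝ) - 1 ≠ 0 := by
    have : 0 < (n : ℝ) - 1 := by linarith
    exact this.ne'
  have h1 : ∀ e : ℕ, ∑ k ∈ range e, (2 * (k : ℝ) + 3) * (1 / (n : ℝ)) ^ (k + 1)
      = (3 * (n : ℝ) - 1) / ((n : ℝ) - 1) ^ 2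
        - (1 / (n : ℝ)) ^ e * ((3 * (n : ℝ) - 1) / ((n : ℝ) - 1) ^ 2 + 2 * e / ((n : ℝ) - 1)) := by
    intro e
    induction e with
    | zero => simp
    | succ e ih =>
      rw [Finset.sum_range_succ, ih, pow_succ]
      have hbr : -((3 * (n : ℝ) - 1) / ((n : ℝ) - 1) ^ 2 + 2 * e / ((n : ℝ) - 1))
          + (2 * (e : ℝ) + 3) * (1 / (n : ℝ))
          + (1 / (n : ℝ)) * ((3 * (n : ℝ) - 1) / ((n : ℝ) - 1) ^ 2
            + 2 * ((e : ℝ) + 1) / ((n : ℝ) - 1)) = 0 := by
        field_simp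
        ring
      push_cast
      linear_combination (1 / (n : ℝ)) ^ e * hbr
  rw [h1]
  have : 0 ≤ (1 / (n : ℝ)) ^ e * ((3 * (n : ℝ) - 1) / ((n : ℝ) - 1) ^ 2 + 2 * e / ((n : ℝ) - 1)) := by
    apply mul_nonneg (by positivity)
    apply add_nonneg
    · exact div_nonneg (by linarith) (by positivity)
    · exact div_nonneg (by positivity) (by linarith)
  linarith

lemma m2_step (E n : ℕ) (hp : n.Prime) (h7 : 7 ≤ n) :
    m2 E (n + 1) ≤ m2 E n * (1 + (3 * (n : ℝ) - 1) / (((n : ℝ) - 1) ^ 2 * (1 - del n))) := by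
  have hp' : n.Prime ∧ n ≠ 2 := ⟨hp, by omega⟩
  obtain ⟨h0, h1, _⟩ := del_spec n hp'
  have hn1 : (0 : ℝ) < (n : ℝ) - 1 := by
    have : (7 : ℝ) ≤ (n : ℝ) := by exact_mod_cast h7
    linarith
  have hd : 0 < 1 - del n := by linarith
  unfold m2
  rw [Ph_act E n hp' (by omega)]
  have e1 : ∀ K ∈ range (ex E n + 1), pw n (del n) (ex E n) K *
      Ph E n (fun k => (((K + 1) * k : ℕ) : ℝ) ^ 2) = pw n (del n) (ex E n) K *
        (((K : ℝ) + 1) ^ 2 * Ph E n (fun k => (k : ℝ) ^ 2)) := by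
    intro K _
    congr 1
    rw [← Ph_smul]
    congr 1
    funext k
    push_cast
    ring
  rw [Finset.sum_congr rfl e1, pw_abel n (del n) (ex E n)
    (fun K => ((K : ℝ) + 1) ^ 2 * Ph E n (fun k => (k : ℝ) ^ 2))]
  have e2 : ∀ k ∈ range (ex E n), (1 / (n : ℝ)) ^ (k + 1) / (1 - del n) *
      ((((k + 1 : ℕ) : ℝ) + 1) ^ 2 * Ph E n (fun k => (k : ℝ) ^ 2) - ((k : ℝ) + 1) ^ 2 *
        Ph E n (fun k => (k : ℝ) ^ 2))
      = ((2 * (k : ℝ) + 3) * (1 / (n : ℝ)) ^ (k + 1)) *
        (Ph E n (fun k => (k : ℝ) ^ 2) / (1 - del n)) := by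
    intro k _
    push_cast
    ring
  rw [Finset.sum_congr rfl e2, ← Finset.sum_mul]
  have h2 := geom2_bd n (by omega) (ex E n)
  have h3 : 0 ≤ Ph E n (fun k => (k : ℝ) ^ 2) / (1 - del n) := div_nonneg (m2_nonneg E n) hd.le
  have h4 := mul_le_mul_of_nonneg_right h2 h3
  refine (add_le_add_right h4 _).trans (le_of_eq ?_)
  push_cast
  field_simp
  ring

lemma pm_step (E n v : ℕ) (hp : n.Prime) (h7 : 7 ≤ n) (hv : 1 ≤ v) (hvE : v < E) :
    pm E (n + 1) v = (1 - 1 / (n : ℝ) / (1 - del n)) * pm E n v +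
      ∑ i ∈ range (v - 1), (if v % (i + 2) = 0 then
        (1 / (n : ℝ)) ^ (i + 1) * (1 - 1 / (n : ℝ)) / (1 - del n) * pm E n (v / (i + 2)) else 0) := by
  have hp' : n.Prime ∧ n ≠ 2 := ⟨hp, by omega⟩
  have hex : ex E n = E := by unfold ex; rw [if_neg (by omega)]
  unfold pm
  rw [Ph_act E n hp' (by omega), hex]
  have e1 : ∀ K ∈ range (E + 1), pw n (del n) E K *
      Ph E n (fun k => if (K + 1) * k = v then 1 else 0) =
      (if v % (K + 1) = 0 then pw n (del n) E K * Ph E n (fun k => if k = v / (K + 1) then 1 else 0)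
        else 0) := by
    intro K _
    split_ifs with h
    · congr 2
      funext k
      obtain ⟨c, hc⟩ := Nat.dvd_of_mod_eq_zero h
      have h2 : v / (K + 1) = c := by rw [hc, Nat.mul_div_cancel_left c (Nat.succ_pos K)]
      rw [h2, hc]
      have h3 : ((K + 1) * k = (K + 1) * c) ↔ k = c :=
        ⟨fun h => Nat.eq_of_mul_eq_mul_left (Nat.succ_pos K) h, fun h => by rw [h]⟩
      simp only [h3]
    · have : (fun k : ℕ => if (K + 1) * k = v then (1 : ℝ) else 0) = fun _ => 0 := by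
        funext k
        rw [if_neg]
        intro h2
        apply h
        rw [← h2]
        exact Nat.mul_mod_right _ _
      rw [this, Ph_zero, mul_zero]
  rw [Finset.sum_congr rfl e1]
  -- split off K = 0 and truncate
  have e2 : ∑ K ∈ range (E + 1), (if v % (K + 1) = 0 then pw n (del n) E K *
        Ph E n (fun k => if k = v / (K + 1) then 1 else 0) else 0)
      = ∑ K ∈ range v, (if v % (K + 1) = 0 then pw n (del n) E K *
        Ph E n (fun k => if k = v / (K + 1) then 1 else 0) else 0) := by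
    symm
    apply Finset.sum_subset
    · intro K hK
      rw [Finset.mem_range] at hK ⊢
      omega
    · intro K _ hK2
      rw [Finset.mem_range, not_lt] at hK2
      rw [if_neg]
      rw [Nat.mod_eq_of_lt (by omega)]
      omega
  rw [e2]
  obtain ⟨v', rfl⟩ := Nat.exists_eq_succ_of_ne_zero (show v ≠ 0 by omega)
  rw [Nat.succ_eq_add_one, Finset.sum_range_succ', add_comm]
  congr 1
  · rw [if_pos (by simp [Nat.mod_one])]
    congr 1
    · unfold pw pii
      rw [if_pos rfl, if_neg (by norm_num), if_pos (by omega)]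
      simp
    · simp
  · rw [Nat.add_sub_cancel]
    apply Finset.sum_congr rfl
    intro i hi
    have hi' := Finset.mem_range.1 hi
    have e3 : i + 1 + 1 = i + 2 := rfl
    rw [e3]
    split_ifs with h
    · congr 1
      unfold pw pii
      rw [if_neg (show ¬ (i + 1 = 0) by omega), if_neg (show ¬ (i + 1 + 1 = 0) by omega),
        if_pos (show i + 1 ≤ E by omega), if_pos (show i + 1 + 1 ≤ E by omega)]
      rw [pow_succ _ (i + 1)]
      ring
    · rfl

/-- exact formula for the cost functional -/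
lemma cost_formula (E n t : ℕ) :
    Ph E n (fun k => max ((k : ℝ) - t) 0)
      = m1 E n - t + ∑ v ∈ Finset.Ico 1 t, ((t : ℝ) - v) * pm E n v := by
  have h1 : ∀ k : ℕ, 1 ≤ k → max ((k : ℝ) - t) 0 = ((k : ℝ) + (-(t : ℝ))) +
      ∑ v ∈ Finset.Ico 1 t, ((t : ℝ) - v) * (if k = v then 1 else 0) := by
    intro k hk
    have h2 : ∑ v ∈ Finset.Ico 1 t, ((t : ℝ) - v) * (if k = v then (1 : ℝ) else 0)
        = if k < t then (t : ℝ) - k else 0 := by
      simp only [mul_ite, mul_one, mul_zero]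
      rw [Finset.sum_ite_eq]
      simp only [Finset.mem_Ico]
      by_cases h3 : k < t
      · rw [if_pos ⟨hk, h3⟩, if_pos h3]
      · rw [if_neg (by omega), if_neg h3]
    rw [h2]
    split_ifs with h3
    · have : (k : ℝ) < t := by exact_mod_cast h3
      rw [max_eq_right (by linarith)]
      ring
    · have : (t : ℝ) ≤ k := by exact_mod_cast not_lt.1 h3
      rw [max_eq_left (by linarith)]
      ring
  rw [Ph_congr E n _ _ h1, Ph_add E n (fun k => (k : ℝ) + (-(t : ℝ))),
    Ph_add E n (fun k => (k : ℝ)) (fun _ => (-(t : ℝ))), Ph_const, Ph_sum]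
  unfold m1 pm
  congr 1
  apply Finset.sum_congr rfl
  intro v _
  rw [Ph_smul]

/-- second moment bound for the cost functional -/
lemma cost_second (E n : ℕ) (t : ℝ) (ht : 0 < t) :
    Ph E n (fun k => max ((k : ℝ) - t) 0) ≤ m2 E n / (4 * t) := by
  have h1 : m2 E n / (4 * t) = Ph E n (fun k => (1 / (4 * t)) * (k : ℝ) ^ 2) := by
    rw [Ph_smul]
    unfold m2
    ring
  rw [h1]
  apply Ph_mono
  intro k _
  have h2 : 1 / (4 * t) * (k : ℝ) ^ 2 = (k : ℝ) ^ 2 / (4 * t) := by ring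
  rw [h2, le_div_iff₀ (by positivity)]
  rcases max_cases ((k : ℝ) - t) 0 with ⟨h3, _⟩ | ⟨h3, _⟩
  · rw [h3]; nlinarith [sq_nonneg ((k : ℝ) - 2 * t)]
  · rw [h3]; nlinarith [sq_nonneg (k : ℝ)]

end Pool.Agent.Helper919.Cov
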