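import Mathlib
import Pool.Agent.Helper919.Cov.Phi

set_option autoImplicit false

namespace Pool.Agent.Helper919.Cov

open Finset
open scoped Classical

/-- scale -/
def SC : ℕ := 2 ^ 60

lemma SC_pos : (0 : ℝ) < (SC : ℝ) := by unfold SC; norm_num

lemma div_ceil (a b : ℕ) (hb : 0 < b) : (a : ℝ) / (b : ℝ) ≤ ((a / b + 1 : ℕ) : ℝ) := by
  rw [div_le_iff₀ (by exact_mod_cast hb)]
  have := Nat.lt_mul_div_succ a hb
  have h2 : a ≤ (a / b + 1) * b := by rw [Nat.mul_comm]; exact this.le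
  exact_mod_cast h2

lemma list_sum_range (f : ℕ → ℕ) (n : ℕ) :
    ((List.range n).map f).sum = ∑ i ∈ range n, f i := by
  induction n with
  | zero => simp
  | succ n ih => rw [List.range_succ, List.map_append, List.sum_append, ih, Finset.sum_range_succ]; simp

/-- new point mass bound -/
def nA (n m : ℕ) (l : List ℕ) (v : ℕ) : ℕ :=
  l.getD v 0 * (n * m - (n - 1)) / (n * m) + 1 + ((List.range (v - 1)).map (fun i =>
    bif Nat.beq (v % (i + 2)) 0 then
      l.getD (v / (i + 2)) 0 * ((n - 1) * (n - 1)) / (n ^ (i + 2) * m) + 1 else 0)).sum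

/-- correction term -/
def GA (t : ℕ) (l : List ℕ) : ℕ := ((List.range t).map (fun v => (t - v) * l.getD v 0)).sum

/-- bounds valid before stage `n` -/
def InvA (E n e1 e2 tot : ℕ) (l : List ℕ) : Prop :=
  m1 E n ≤ (e1 : ℝ) / SC ∧ m2 E n ≤ (e2 : ℝ) / SC ∧ ∑ k ∈ pr7 n, cost E k ≤ (tot : ℝ) / SC ∧
    ∀ v, 1 ≤ v → v ≤ 32 → pm E n v ≤ (l.getD v 0 : ℝ) / SC

lemma pr7_succ (n : ℕ) (hp : n.Prime) (h7 : 7 ≤ n) (f : ℕ → ℝ) :
    ∑ k ∈ pr7 (n + 1), f k = ∑ k ∈ pr7 n, f k + f n := by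
  unfold pr7
  rw [Finset.range_add_one, Finset.filter_insert, if_pos ⟨hp, h7⟩, Finset.sum_insert (by simp)]
  ring

lemma pr7_skip (n : ℕ) (hp : ¬ n.Prime) (f : ℕ → ℝ) :
    ∑ k ∈ pr7 (n + 1), f k = ∑ k ∈ pr7 n, f k := by
  unfold pr7
  rw [Finset.range_add_one, Finset.filter_insert, if_neg (fun h => hp h.1)]

theorem stepA_sound (E n e1 e2 tot : ℕ) (l : List ℕ) (hE : 33 < E) (hp : n.Prime) (h7 : 7 ≤ n)
    (h200 : n < 200) (h : InvA E n e1 e2 tot l) (t m : ℕ) (ht : t = TT n) (hm : m = n - 1 - t) :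
    InvA E (n + 1) (e1 * (n - t) / m + 1) (e2 + e2 * (3 * n - 1) / ((n - 1) * m) + 1)
      (tot + (e1 + GA t l - t * SC) / m + 1) ((List.range 33).map (nA n m l)) := by
  obtain ⟨h1, h2, h3, h4⟩ := h
  obtain ⟨ht2, htn⟩ := TT_bd n h7 h200
  rw [← ht] at ht2 htn
  have hm1 : 1 ≤ m := by omega
  have hmR : (0 : ℝ) < (m : ℝ) := by exact_mod_cast hm1
  have hmc : (m : ℝ) = (n : ℝ) - 1 - t := by
    have : m + t + 1 = n := by omega
    have h5 : (m : ℝ) + t + 1 = n := by exact_mod_cast this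
    linarith
  have hn7 : (7 : ℝ) ≤ (n : ℝ) := by exact_mod_cast h7
  have hn1 : (0 : ℝ) < (n : ℝ) - 1 := by linarith
  have hn0 : (n : ℝ) ≠ 0 := by linarith
  have hn1' : (n : ℝ) - 1 ≠ 0 := hn1.ne'
  have hdel : del n = (t : ℝ) / ((n : ℝ) - 1) := by
    unfold del
    rw [if_neg (by omega), if_neg (by omega), if_pos h200, ht]
  have hdel1 : 1 - del n = (m : ℝ) / ((n : ℝ) - 1) := by
    rw [hdel, hmc]; field_simp
  have hS := SC_pos
  have hm0 : (m : ℝ) ≠ 0 := hmR.ne'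
  have cast1 : ((n - 1 : ℕ) : ℝ) = (n : ℝ) - 1 := by rw [Nat.cast_sub (by omega)]; simp
  refine ⟨?_, ?_, ?_, ?_⟩
  · -- first moment
    refine (m1_step E n hp h7).trans ?_
    rw [hdel1]
    have e : (1 : ℝ) + 1 / (((n : ℝ) - 1) * ((m : ℝ) / ((n : ℝ) - 1))) = ((n : ℝ) - t) / m := by
      rw [mul_div_cancel₀ _ hn1']
      rw [hmc] at hm0 ⊢
      field_simp
      ring
    rw [e]
    have h5 := div_ceil (e1 * (n - t)) m hm1
    have cast2 : ((e1 * (n - t) : ℕ) : ℝ) = (e1 : ℝ) * ((n : ℝ) - t) := by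
      rw [Nat.cast_mul, Nat.cast_sub (by omega)]
    rw [cast2] at h5
    have hnt : 0 ≤ ((n : ℝ) - t) / m := div_nonneg (by linarith) hmR.le
    calc m1 E n * (((n : ℝ) - t) / m) ≤ (e1 : ℝ) / SC * (((n : ℝ) - t) / m) :=
          mul_le_mul_of_nonneg_right h1 hnt
      _ = ((e1 : ℝ) * ((n : ℝ) - t) / m) / SC := by ring
      _ ≤ _ := div_le_div_of_nonneg_right h5 hS.le
  · -- second moment
    refine (m2_step E n hp h7).trans ?_
    rw [hdel1]
    have e : (1 : ℝ) + (3 * (n : ℝ) - 1) / (((n : ℝ) - 1) ^ 2 * ((m : ℝ) / ((n : ℝ) - 1)))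
        = 1 + (3 * (n : ℝ) - 1) / (((n : ℝ) - 1) * m) := by
      congr 1
      field_simp
    rw [e]
    have hpos : 0 < (n - 1) * m := Nat.mul_pos (by omega) hm1
    have h5 := div_ceil (e2 * (3 * n - 1)) ((n - 1) * m) hpos
    have cast2 : ((e2 * (3 * n - 1) : ℕ) : ℝ) = (e2 : ℝ) * (3 * (n : ℝ) - 1) := by
      rw [Nat.cast_mul, Nat.cast_sub (by omega)]; push_cast; ring
    have cast3 : (((n - 1) * m : ℕ) : ℝ) = ((n : ℝ) - 1) * m := by rw [Nat.cast_mul, cast1]
    rw [cast2, cast3] at h5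
    have hnn : 0 ≤ 1 + (3 * (n : ℝ) - 1) / (((n : ℝ) - 1) * m) := by
      have : 0 ≤ (3 * (n : ℝ) - 1) / (((n : ℝ) - 1) * m) :=
        div_nonneg (by linarith) (mul_nonneg hn1.le hmR.le)
      linarith
    calc m2 E n * (1 + (3 * (n : ℝ) - 1) / (((n : ℝ) - 1) * m))
        ≤ (e2 : ℝ) / SC * (1 + (3 * (n : ℝ) - 1) / (((n : ℝ) - 1) * m)) :=
          mul_le_mul_of_nonneg_right h2 hnn
      _ = ((e2 : ℝ) + (e2 : ℝ) * (3 * (n : ℝ) - 1) / (((n : ℝ) - 1) * m)) / SC := by ring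
      _ ≤ _ := by
          apply div_le_div_of_nonneg_right _ hS.le
          push_cast at h5 ⊢
          linarith
  · -- cost
    rw [pr7_succ n hp h7]
    have e : cost E n = (m1 E n - t + ∑ v ∈ Finset.Ico 1 t, ((t : ℝ) - v) * pm E n v) / m := by
      unfold cost
      rw [hdel1]
      have e1 : del n * ((n : ℝ) - 1) = t := by rw [hdel]; field_simp
      rw [e1, cost_formula, mul_div_cancel₀ _ hn1']
    have h5 : ∑ v ∈ Finset.Ico 1 t, ((t : ℝ) - v) * pm E n v ≤ (GA t l : ℝ) / SC := by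
      unfold GA
      rw [list_sum_range]
      push_cast
      rw [Finset.sum_div]
      have h6 : ∑ v ∈ Finset.Ico 1 t, ((t : ℝ) - v) * pm E n v
          ≤ ∑ v ∈ Finset.Ico 1 t, (((t - v : ℕ) : ℝ) * (l.getD v 0 : ℝ)) / SC := by
        apply Finset.sum_le_sum
        intro v hv
        rw [Finset.mem_Ico] at hv
        have ht32 : t ≤ 32 := by rw [ht]; unfold TT; split_ifs <;> norm_num
        have h8 := h4 v hv.1 (by omega)
        rw [Nat.cast_sub hv.2.le, mul_div_assoc]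
        apply mul_le_mul_of_nonneg_left h8
        have : (v : ℝ) < t := by exact_mod_cast hv.2
        linarith
      refine h6.trans ?_
      apply Finset.sum_le_sum_of_subset_of_nonneg
      · intro v hv
        rw [Finset.mem_Ico] at hv
        exact Finset.mem_range.2 hv.2
      · intro v _ _
        positivity
    have h6 := div_ceil (e1 + GA t l - t * SC) m hm1
    have h7' : (e1 : ℝ) + GA t l - t * SC ≤ ((e1 + GA t l - t * SC : ℕ) : ℝ) := by
      have : ((e1 + GA t l : ℕ) : ℝ) ≤ ((e1 + GA t l - t * SC : ℕ) : ℝ) + ((t * SC : ℕ) : ℝ) := by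
        rw [← Nat.cast_add]
        exact_mod_cast (by omega : e1 + GA t l ≤ e1 + GA t l - t * SC + t * SC)
      push_cast at this ⊢
      linarith
    have h8 : cost E n ≤ (((e1 + GA t l - t * SC) / m + 1 : ℕ) : ℝ) / SC := by
      rw [e]
      calc (m1 E n - t + ∑ v ∈ Finset.Ico 1 t, ((t : ℝ) - v) * pm E n v) / m
          ≤ ((e1 : ℝ) / SC - t + (GA t l : ℝ) / SC) / m := by
            apply div_le_div_of_nonneg_right _ hmR.le
            linarith
        _ = (((e1 : ℝ) + GA t l - t * SC) / m) / SC := by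
            field_simp
            ring
        _ ≤ (((e1 + GA t l - t * SC : ℕ) : ℝ) / m) / SC :=
            div_le_div_of_nonneg_right (div_le_div_of_nonneg_right h7' hmR.le) hS.le
        _ ≤ _ := div_le_div_of_nonneg_right h6 hS.le
    calc ∑ k ∈ pr7 n, cost E k + cost E n
        ≤ (tot : ℝ) / SC + (((e1 + GA t l - t * SC) / m + 1 : ℕ) : ℝ) / SC := add_le_add h3 h8
      _ = _ := by push_cast; ring
  · -- point masses
    intro v hv hv2
    have e0 : ((List.range 33).map (nA n m l)).getD v 0 = nA n m l v := by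
      rw [List.getD_eq_getElem?_getD, List.getElem?_map, List.getElem?_range (by omega)]
      rfl
    rw [e0, pm_step E n v hp h7 hv (by omega), hdel1]
    have hnm : 0 < n * m := Nat.mul_pos (by omega) hm1
    have c1 : (1 : ℝ) - 1 / (n : ℝ) / ((m : ℝ) / ((n : ℝ) - 1))
        = ((n * m - (n - 1) : ℕ) : ℝ) / ((n * m : ℕ) : ℝ) := by
      have : n - 1 ≤ n * m := (Nat.sub_le n 1).trans (Nat.le_mul_of_pos_right n hm1)
      rw [Nat.cast_sub this, cast1]
      push_cast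
      field_simp
    have t1 : (1 - 1 / (n : ℝ) / ((m : ℝ) / ((n : ℝ) - 1))) * pm E n v
        ≤ ((l.getD v 0 * (n * m - (n - 1)) / (n * m) + 1 : ℕ) : ℝ) / SC := by
      rw [c1]
      have h5 := div_ceil (l.getD v 0 * (n * m - (n - 1))) (n * m) hnm
      calc ((n * m - (n - 1) : ℕ) : ℝ) / ((n * m : ℕ) : ℝ) * pm E n v
          ≤ ((n * m - (n - 1) : ℕ) : ℝ) / ((n * m : ℕ) : ℝ) * ((l.getD v 0 : ℝ) / SC) :=
            mul_le_mul_of_nonneg_left (h4 v hv hv2) (by positivity)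
        _ = (((l.getD v 0 * (n * m - (n - 1)) : ℕ) : ℝ) / ((n * m : ℕ) : ℝ)) / SC := by
            push_cast; ring
        _ ≤ _ := div_le_div_of_nonneg_right h5 hS.le
    have t2 : ∀ i ∈ range (v - 1), (if v % (i + 2) = 0 then
        (1 / (n : ℝ)) ^ (i + 1) * (1 - 1 / (n : ℝ)) / ((m : ℝ) / ((n : ℝ) - 1))
          * pm E n (v / (i + 2)) else 0)
        ≤ (((bif Nat.beq (v % (i + 2)) 0 then
      l.getD (v / (i + 2)) 0 * ((n - 1) * (n - 1)) / (n ^ (i + 2) * m) + 1 else 0) : ℕ) : ℝ) / SC := by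
      intro i hi
      have hi' := Finset.mem_range.1 hi
      by_cases hd : v % (i + 2) = 0
      · rw [if_pos hd, hd]
        have hvd : 1 ≤ v / (i + 2) := by
          apply Nat.div_pos _ (by omega)
          exact Nat.le_of_dvd (by omega) (Nat.dvd_of_mod_eq_zero hd)
        have hvd2 : v / (i + 2) ≤ 32 := (Nat.div_le_self _ _).trans hv2
        have c2 : (1 / (n : ℝ)) ^ (i + 1) * (1 - 1 / (n : ℝ)) / ((m : ℝ) / ((n : ℝ) - 1))
            = (((n - 1) * (n - 1) : ℕ) : ℝ) / ((n ^ (i + 2) * m : ℕ) : ℝ) := by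
          rw [Nat.cast_mul, cast1]
          push_cast
          rw [one_div, inv_pow, pow_succ _ (i + 1)]
          field_simp
        rw [c2]
        show _ ≤ ((l.getD (v / (i + 2)) 0 * ((n - 1) * (n - 1)) / (n ^ (i + 2) * m) + 1 : ℕ) : ℝ) / SC
        have hnm2 : 0 < n ^ (i + 2) * m := Nat.mul_pos (pow_pos (by omega) _) hm1
        have h5 := div_ceil (l.getD (v / (i + 2)) 0 * ((n - 1) * (n - 1))) (n ^ (i + 2) * m) hnm2
        calc (((n - 1) * (n - 1) : ℕ) : ℝ) / ((n ^ (i + 2) * m : ℕ) : ℝ) * pm E n (v / (i + 2))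
            ≤ (((n - 1) * (n - 1) : ℕ) : ℝ) / ((n ^ (i + 2) * m : ℕ) : ℝ)
                * ((l.getD (v / (i + 2)) 0 : ℝ) / SC) :=
              mul_le_mul_of_nonneg_left (h4 _ hvd hvd2) (by positivity)
          _ = (((l.getD (v / (i + 2)) 0 * ((n - 1) * (n - 1)) : ℕ) : ℝ)
                / ((n ^ (i + 2) * m : ℕ) : ℝ)) / SC := by push_cast; ring
          _ ≤ _ := div_le_div_of_nonneg_right h5 hS.le
      · rw [if_neg hd]
        positivity
    have t3 := Finset.sum_le_sum t2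
    unfold nA
    rw [list_sum_range]
    refine (add_le_add t1 t3).trans (le_of_eq ?_)
    rw [← Finset.sum_div]
    push_cast
    ring

theorem skip_sound (E n e1 e2 tot : ℕ) (l : List ℕ) (hp : ¬ n.Prime)
    (h : InvA E n e1 e2 tot l) : InvA E (n + 1) e1 e2 tot l := by
  obtain ⟨h1, h2, h3, h4⟩ := h
  have hp' : ¬ (n.Prime ∧ n ≠ 2) := fun h => hp h.1
  refine ⟨?_, ?_, ?_, ?_⟩
  · unfold m1 at h1 ⊢; rw [Ph_skip E n hp']; exact h1
  · unfold m2 at h2 ⊢; rw [Ph_skip E n hp']; exact h2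
  · rw [pr7_skip n hp]; exact h3
  · intro v hv hv2
    have := h4 v hv hv2
    unfold pm at this ⊢
    rw [Ph_skip E n hp']; exact this

theorem skips_sound (E n n' e1 e2 tot : ℕ) (l : List ℕ) (hle : n ≤ n')
    (hp : ∀ k, n ≤ k → k < n' → ¬ k.Prime)
    (h : InvA E n e1 e2 tot l) : InvA E n' e1 e2 tot l := by
  induction n', hle using Nat.le_induction with
  | base => exact h
  | succ k hk ih =>
    exact skip_sound E k e1 e2 tot l (hp k hk (Nat.lt_succ_self k))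
      (ih fun j h1 h2 => hp j h1 (by omega))

/-- one certified step -/
theorem certA (E n n' e1 e2 tot : ℕ) (l : List ℕ) (f1 f2 ftot : ℕ) (fl : List ℕ)
    (hE : 33 < E) (h : InvA E n e1 e2 tot l) (hp : n.Prime) (h7 : 7 ≤ n) (h200 : n < 200)
    (hle : n + 1 ≤ n') (hskip : ∀ k, n + 1 ≤ k → k < n' → ¬ k.Prime)
    (hc : (e1 * (n - TT n) / (n - 1 - TT n) + 1,
      e2 + e2 * (3 * n - 1) / ((n - 1) * (n - 1 - TT n)) + 1,
      tot + (e1 + GA (TT n) l - TT n * SC) / (n - 1 - TT n) + 1,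
      (List.range 33).map (nA n (n - 1 - TT n) l)) = (f1, f2, ftot, fl)) :
    InvA E n' f1 f2 ftot fl := by
  have h1 := stepA_sound E n e1 e2 tot l hE hp h7 h200 h (TT n) (n - 1 - TT n) rfl rfl
  simp only [Prod.mk.injEq] at hc
  obtain ⟨c1, c2, c3, c4⟩ := hc
  rw [c1, c2, c3, c4] at h1
  exact skips_sound E (n + 1) n' _ _ _ _ hle hskip h1

end Pool.Agent.Helper919.Cov
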