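import Mathlib
import Pool.Agent.Helper919.Cov.RegA

set_option autoImplicit false

namespace Pool.Agent.Helper919.Cov

open Finset
open scoped Classical

lemma Ph3 (E : ℕ) (g : ℕ → ℝ) : Ph E 3 g = g 1 := by
  rw [Ph_skip E 2 (by simp), Ph_skip E 1 (by simp [Nat.not_prime_one]),
    Ph_skip E 0 (by simp [Nat.not_prime_zero])]
  rfl

lemma Ph5 (E : ℕ) (g : ℕ → ℝ) : Ph E 5 g = (g 1 + g 2) / 2 := by
  rw [Ph_skip E 4 (by norm_num), Ph_act E 3 (by norm_num) (by norm_num)]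
  have h1 : ex E 3 = 1 := by simp [ex]
  have h2 : del 3 = 1 / 3 := by simp [del]
  rw [h1, h2, Finset.sum_range_succ, Finset.sum_range_one, Ph3, Ph3]
  unfold pw pii
  norm_num
  ring

lemma Ph7 (E : ℕ) (f : ℕ → ℝ) : Ph E 7 f = ∑ K ∈ range (E + 1),
    pw 5 (1 / 4) E K * ((f (1 + K) + f (2 + K)) / 2) := by
  rw [Ph_skip E 6 (by norm_num), Ph_five]
  have h1 : ex E 5 = E := by simp [ex]
  have h2 : del 5 = 1 / 4 := by simp [del]
  rw [h1, h2]
  apply Finset.sum_congr rfl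
  intro K _
  rw [Ph5]

lemma m1_base (E : ℕ) : m1 E 7 ≤ 11 / 6 := by
  unfold m1
  rw [Ph7, pw_abel 5 (1 / 4) E (fun K => (((1 + K : ℕ) : ℝ) + ((2 + K : ℕ) : ℝ)) / 2)]
  have e2 : ∀ k ∈ range E, (1 / ((5 : ℕ) : ℝ)) ^ (k + 1) / (1 - 1 / 4) *
      ((((1 + (k + 1) : ℕ) : ℝ) + ((2 + (k + 1) : ℕ) : ℝ)) / 2 -
        (((1 + k : ℕ) : ℝ) + ((2 + k : ℕ) : ℝ)) / 2)
      = (1 / ((5 : ℕ) : ℝ)) ^ (k + 1) * (4 / 3) := by
    intro k _
    push_cast
    ring
  rw [Finset.sum_congr rfl e2, ← Finset.sum_mul]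
  have h := geom_bd 5 (by norm_num) E
  norm_num at h ⊢
  linarith

lemma m2_base (E : ℕ) : m2 E 7 ≤ 4 := by
  unfold m2
  rw [Ph7, pw_abel 5 (1 / 4) E (fun K => (((1 + K : ℕ) : ℝ) ^ 2 + ((2 + K : ℕ) : ℝ) ^ 2) / 2)]
  have e2 : ∀ k ∈ range E, (1 / ((5 : ℕ) : ℝ)) ^ (k + 1) / (1 - 1 / 4) *
      ((((1 + (k + 1) : ℕ) : ℝ) ^ 2 + ((2 + (k + 1) : ℕ) : ℝ) ^ 2) / 2 -
        (((1 + k : ℕ) : ℝ) ^ 2 + ((2 + k : ℕ) : ℝ) ^ 2) / 2)
      = (4 / 3) * ((2 * (k : ℝ) + 3) * (1 / ((5 : ℕ) : ℝ)) ^ (k + 1))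
        + (4 / 3) * (1 / ((5 : ℕ) : ℝ)) ^ (k + 1) := by
    intro k _
    push_cast
    ring
  rw [Finset.sum_congr rfl e2, Finset.sum_add_distrib, ← Finset.mul_sum, ← Finset.mul_sum]
  have h := geom_bd 5 (by norm_num) E
  have h2 := geom2_bd 5 (by norm_num) E
  norm_num at h h2 ⊢
  linarith

lemma pm_base (E v : ℕ) (hE : 33 < E) (hv : 1 ≤ v) (hv2 : v ≤ 32) :
    pm E 7 v = if v = 1 then 11 / 30 else if v = 2 then 71 / 150 else 16 / (5 : ℝ) ^ v := by
  unfold pm
  rw [Ph7]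
  have e : ∀ K ∈ range (E + 1), pw 5 (1 / 4) E K *
      (((if 1 + K = v then (1 : ℝ) else 0) + (if 2 + K = v then (1 : ℝ) else 0)) / 2)
      = (if K = v - 1 then pw 5 (1 / 4) E K / 2 else 0)
        + (if v ≠ 1 ∧ K = v - 2 then pw 5 (1 / 4) E K / 2 else 0) := by
    intro K _
    have h1 : (1 + K = v) ↔ K = v - 1 := by omega
    have h2 : (2 + K = v) ↔ (v ≠ 1 ∧ K = v - 2) := by omega
    simp only [h1, h2]
    split_ifs <;> ring
  rw [Finset.sum_congr rfl e, Finset.sum_add_distrib, Finset.sum_ite_eq']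
  rw [if_pos (Finset.mem_range.2 (by omega))]
  have p0 : pw 5 (1 / 4) E 0 = 11 / 15 := by
    unfold pw pii
    rw [if_pos rfl, if_neg (by norm_num), if_pos (by omega)]
    norm_num
  have pk : ∀ k, 1 ≤ k → k ≤ 32 → pw 5 (1 / 4) E k = (16 / 15) / (5 : ℝ) ^ k := by
    intro k hk hk2
    unfold pw pii
    rw [if_neg (show ¬ (k = 0) by omega), if_neg (show ¬ (k + 1 = 0) by omega),
      if_pos (show k ≤ E by omega), if_pos (show k + 1 ≤ E by omega)]
    push_cast
    rw [pow_succ, one_div, inv_pow]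
    field_simp
    norm_num
  by_cases hv1 : v = 1
  · subst hv1
    simp only [ne_eq, not_true_eq_false, false_and, if_false, Finset.sum_const_zero, add_zero,
      if_true]
    rw [show 1 - 1 = 0 from rfl, p0]
    norm_num
  · have e3 : ∀ K ∈ range (E + 1), (if v ≠ 1 ∧ K = v - 2 then pw 5 (1 / 4) E K / 2 else 0)
        = (if K = v - 2 then pw 5 (1 / 4) E K / 2 else 0) := by
      intro K _
      simp only [ne_eq, hv1, not_false_eq_true, true_and]
    rw [Finset.sum_congr rfl e3, Finset.sum_ite_eq', if_pos (Finset.mem_range.2 (by omega)),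
      if_neg hv1]
    by_cases hv2' : v = 2
    · subst hv2'
      rw [if_pos rfl, show 2 - 1 = 1 from rfl, show 2 - 2 = 0 from rfl, p0,
        pk 1 le_rfl (by norm_num)]
      norm_num
    · rw [if_neg hv2', pk (v - 1) (by omega) (by omega), pk (v - 2) (by omega) (by omega)]
      obtain ⟨w, rfl⟩ : ∃ w, v = w + 2 := ⟨v - 2, by omega⟩
      rw [show w + 2 - 1 = w + 1 by omega, show w + 2 - 2 = w by omega, pow_succ, pow_succ, pow_succ]
      field_simp
      norm_num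

/-- initial list -/
def l7 (v : ℕ) : ℕ := bif Nat.beq v 0 then 0 else bif Nat.beq v 1 then 11 * SC / 30 + 1 else bif Nat.beq v 2 then
  71 * SC / 150 + 1 else 16 * SC / 5 ^ v + 1

lemma pr7_seven : pr7 7 = ∅ := by
  unfold pr7
  rw [Finset.filter_eq_empty_iff]
  intro n hn
  have := Finset.mem_range.1 hn
  rintro ⟨_, h⟩
  omega

theorem invA_base (E : ℕ) (hE : 33 < E) (l : List ℕ) (e1 : ℕ)
    (h1 : 11 * SC / 6 + 1 = e1) (hl : (List.range 33).map l7 = l) :
    InvA E 7 e1 (4 * SC) 0 l := by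
  have hS := SC_pos
  refine ⟨?_, ?_, ?_, ?_⟩
  · refine (m1_base E).trans ?_
    rw [le_div_iff₀ hS, ← h1]
    have := div_ceil (11 * SC) 6 (by norm_num)
    refine le_trans (le_of_eq ?_) this
    push_cast; ring
  · refine (m2_base E).trans ?_
    rw [le_div_iff₀ hS]
    push_cast
    exact le_rfl
  · rw [pr7_seven]; simp
  · intro v hv hv2
    rw [← hl, List.getD_eq_getElem?_getD, List.getElem?_map, List.getElem?_range (by omega)]
    show _ ≤ (l7 v : ℝ) / SC
    rw [pm_base E v hE hv hv2, le_div_iff₀ hS]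
    unfold l7
    have b0 : Nat.beq v 0 = false := by
      rw [Bool.eq_false_iff]; intro h; have := Nat.eq_of_beq_eq_true h; omega
    rw [b0]
    by_cases hv1 : v = 1
    · subst hv1
      rw [if_pos rfl]
      show _ ≤ ((11 * SC / 30 + 1 : ℕ) : ℝ)
      have := div_ceil (11 * SC) 30 (by norm_num)
      refine le_trans (le_of_eq ?_) this
      push_cast; ring
    · have b1 : Nat.beq v 1 = false := by
        rw [Bool.eq_false_iff]; intro h; exact hv1 (Nat.eq_of_beq_eq_true h)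
      rw [if_neg hv1, b1]
      by_cases hv2' : v = 2
      · subst hv2'
        rw [if_pos rfl]
        show _ ≤ ((71 * SC / 150 + 1 : ℕ) : ℝ)
        have := div_ceil (71 * SC) 150 (by norm_num)
        refine le_trans (le_of_eq ?_) this
        push_cast; ring
      · have b2 : Nat.beq v 2 = false := by
          rw [Bool.eq_false_iff]; intro h; exact hv2' (Nat.eq_of_beq_eq_true h)
        rw [if_neg hv2', b2]
        show _ ≤ ((16 * SC / 5 ^ v + 1 : ℕ) : ℝ)
        have := div_ceil (16 * SC) (5 ^ v) (by positivity)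
        refine le_trans (le_of_eq ?_) this
        push_cast; ring

end Pool.Agent.Helper919.Cov
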