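import Mathlib
import Pool.Agent.Helper919.Cov.RegA

set_option autoImplicit false

namespace Pool.Agent.Helper919.Cov

open Finset
open scoped Classical

/-- bounds valid before stage `n`, second moment form -/
def InvB (E n c s : ℕ) : Prop :=
  m2 E n ≤ (c : ℝ) / SC ∧ ∑ k ∈ pr7 n, cost E k ≤ (s : ℝ) / SC

lemma del_big (n : ℕ) (h : 200 ≤ n) : del n = 1 / 4 := by
  unfold del
  rw [if_neg (by omega), if_neg (by omega), if_neg (by omega)]

lemma m2_big (E n : ℕ) (hp : n.Prime) (h : 200 ≤ n) :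
    m2 E (n + 1) ≤ m2 E n * (1 + 4 * (3 * (n : ℝ) - 1) / (3 * (((n : ℝ) - 1) * ((n : ℝ) - 1)))) := by
  refine (m2_step E n hp (by omega)).trans (le_of_eq ?_)
  rw [del_big n h]
  have hn : (200 : ℝ) ≤ (n : ℝ) := by exact_mod_cast h
  have hn1 : (n : ℝ) - 1 ≠ 0 := by
    have : 0 < (n : ℝ) - 1 := by linarith
    exact this.ne'
  congr 2
  field_simp
  ring

lemma cost_big (E n : ℕ) (h : 200 ≤ n) :
    cost E n ≤ 4 * m2 E n / (3 * (((n : ℝ) - 1) * ((n : ℝ) - 1))) := by
  have hn : (200 : ℝ) ≤ (n : ℝ) := by exact_mod_cast h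
  have hn1 : (0 : ℝ) < (n : ℝ) - 1 := by linarith
  unfold cost
  rw [del_big n h]
  have h1 := cost_second E n (1 / 4 * ((n : ℝ) - 1)) (by positivity)
  calc Ph E n (fun k => max ((k : ℝ) - 1 / 4 * ((n : ℝ) - 1)) 0) / (((n : ℝ) - 1) * (1 - 1 / 4))
      ≤ (m2 E n / (4 * (1 / 4 * ((n : ℝ) - 1)))) / (((n : ℝ) - 1) * (1 - 1 / 4)) := by
        apply div_le_div_of_nonneg_right h1
        apply mul_nonneg hn1.le; norm_num
    _ = _ := by
        field_simp
        norm_num

/-- second moment increment -/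
def incC (n c : ℕ) : ℕ := 4 * c * (3 * n - 1) / (3 * ((n - 1) * (n - 1))) + 1
/-- cost increment -/
def incS (n c : ℕ) : ℕ := 4 * c / (3 * ((n - 1) * (n - 1))) + 1

theorem stepB_sound (E n c s : ℕ) (h : 200 ≤ n) (hI : InvB E n c s) :
    InvB E (n + 1) (c + incC n c) (s + incS n c) := by
  obtain ⟨h1, h2⟩ := hI
  have hS := SC_pos
  have hn : (200 : ℝ) ≤ (n : ℝ) := by exact_mod_cast h
  have hn1 : (0 : ℝ) < (n : ℝ) - 1 := by linarith
  have cast1 : ((n - 1 : ℕ) : ℝ) = (n : ℝ) - 1 := by rw [Nat.cast_sub (by omega)]; simp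
  have hpos : 0 < 3 * ((n - 1) * (n - 1)) := by
    have : 0 < n - 1 := by omega
    positivity
  have cast2 : ((3 * n - 1 : ℕ) : ℝ) = 3 * (n : ℝ) - 1 := by
    rw [Nat.cast_sub (by omega)]; push_cast; ring
  have d1 := div_ceil (4 * c * (3 * n - 1)) (3 * ((n - 1) * (n - 1))) hpos
  have d2 := div_ceil (4 * c) (3 * ((n - 1) * (n - 1))) hpos
  have d1' : (4 * (c : ℝ) * (3 * (n : ℝ) - 1)) / (3 * (((n : ℝ) - 1) * ((n : ℝ) - 1)))
      ≤ (incC n c : ℝ) := by
    unfold incC
    refine le_trans (le_of_eq ?_) d1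
    rw [Nat.cast_mul (4 * c), Nat.cast_mul 3, Nat.cast_mul (n - 1), cast1, cast2]
    push_cast
    rfl
  have d2' : (4 * (c : ℝ)) / (3 * (((n : ℝ) - 1) * ((n : ℝ) - 1))) ≤ (incS n c : ℝ) := by
    unfold incS
    refine le_trans (le_of_eq ?_) d2
    rw [Nat.cast_mul 3, Nat.cast_mul (n - 1), cast1]
    push_cast
    rfl
  by_cases hp : n.Prime
  · constructor
    · refine (m2_big E n hp h).trans ?_
      have hnn : 0 ≤ 1 + 4 * (3 * (n : ℝ) - 1) / (3 * (((n : ℝ) - 1) * ((n : ℝ) - 1))) := by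
        have : 0 ≤ 4 * (3 * (n : ℝ) - 1) / (3 * (((n : ℝ) - 1) * ((n : ℝ) - 1))) :=
          div_nonneg (by linarith) (by positivity)
        linarith
      calc m2 E n * (1 + 4 * (3 * (n : ℝ) - 1) / (3 * (((n : ℝ) - 1) * ((n : ℝ) - 1))))
          ≤ (c : ℝ) / SC * (1 + 4 * (3 * (n : ℝ) - 1) / (3 * (((n : ℝ) - 1) * ((n : ℝ) - 1)))) :=
            mul_le_mul_of_nonneg_right h1 hnn
        _ = ((c : ℝ) + (4 * (c : ℝ) * (3 * (n : ℝ) - 1)) / (3 * (((n : ℝ) - 1) * ((n : ℝ) - 1))))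
              / SC := by ring
        _ ≤ _ := by
            apply div_le_div_of_nonneg_right _ hS.le
            push_cast
            linarith
    · rw [pr7_succ n hp (by omega)]
      have h3 : cost E n ≤ (incS n c : ℝ) / SC := by
        refine (cost_big E n h).trans ?_
        calc 4 * m2 E n / (3 * (((n : ℝ) - 1) * ((n : ℝ) - 1)))
            ≤ 4 * ((c : ℝ) / SC) / (3 * (((n : ℝ) - 1) * ((n : ℝ) - 1))) := by
              apply div_le_div_of_nonneg_right _ (by positivity)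
              linarith
          _ = (4 * (c : ℝ)) / (3 * (((n : ℝ) - 1) * ((n : ℝ) - 1))) / SC := by ring
          _ ≤ _ := div_le_div_of_nonneg_right d2' hS.le
      calc ∑ k ∈ pr7 n, cost E k + cost E n ≤ (s : ℝ) / SC + (incS n c : ℝ) / SC :=
            add_le_add h2 h3
        _ = _ := by push_cast; ring
  · have hp' : ¬ (n.Prime ∧ n ≠ 2) := fun h => hp h.1
    constructor
    · have e : m2 E (n + 1) = m2 E n := by unfold m2; rw [Ph_skip E n hp']
      rw [e]
      refine h1.trans (div_le_div_of_nonneg_right ?_ hS.le)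
      push_cast
      have : (0 : ℝ) ≤ (incC n c : ℝ) := Nat.cast_nonneg _
      linarith
    · rw [pr7_skip n hp]
      refine h2.trans (div_le_div_of_nonneg_right ?_ hS.le)
      push_cast
      have : (0 : ℝ) ≤ (incS n c : ℝ) := Nat.cast_nonneg _
      linarith

theorem skipB_sound (E n c s : ℕ) (hp : ¬ n.Prime) (hI : InvB E n c s) : InvB E (n + 1) c s := by
  obtain ⟨h1, h2⟩ := hI
  have hp' : ¬ (n.Prime ∧ n ≠ 2) := fun h => hp h.1
  constructor
  · unfold m2 at h1 ⊢; rw [Ph_skip E n hp']; exact h1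
  · rw [pr7_skip n hp]; exact h2

/-- product of the primes below 200 -/
def PR : ℕ := 7799922041683461553249199106329813876687996789903550945093032474868511536164700810

lemma PR_dvd : PR ∣ Nat.factorial 199 := by
  apply Nat.dvd_of_mod_eq_zero
  decide +kernel

lemma cop_of_prime (n : ℕ) (hp : n.Prime) (h : 200 ≤ n) : Nat.gcd n PR = 1 := by
  have h1 : ¬ n ∣ PR := by
    intro h2
    have := (hp.dvd_factorial).1 (h2.trans PR_dvd)
    omega
  exact (Nat.Prime.coprime_iff_not_dvd hp).2 h1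

/-- certified loop -/
def runB : ℕ → ℕ → ℕ → ℕ → ℕ × ℕ
  | 0, _, c, s => (c, s)
  | k + 1, n, c, s => bif Nat.beq (Nat.gcd n PR) 1 then runB k (n + 1) (c + incC n c) (s + incS n c)
      else runB k (n + 1) c s

theorem runB_sound (E : ℕ) : ∀ k n c s c' s' : ℕ, 200 ≤ n → InvB E n c s →
    runB k n c s = (c', s') → InvB E (n + k) c' s' := by
  intro k
  induction k with
  | zero =>
    intro n c s c' s' _ hI h
    have h' : (c, s) = (c', s') := h
    rw [Prod.mk.injEq] at h'
    obtain ⟨rfl, rfl⟩ := h'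
    exact hI
  | succ k ih =>
    intro n c s c' s' hn hI h
    have e : n + (k + 1) = n + 1 + k := by ring
    rw [e]
    have h' : (bif Nat.beq (Nat.gcd n PR) 1 then runB k (n + 1) (c + incC n c) (s + incS n c)
      else runB k (n + 1) c s) = (c', s') := h
    by_cases hg : Nat.gcd n PR = 1
    · rw [hg] at h'
      have h2 : runB k (n + 1) (c + incC n c) (s + incS n c) = (c', s') := h'
      exact ih (n + 1) _ _ c' s' (by omega) (stepB_sound E n c s hn hI) h2
    · have hb : Nat.beq (Nat.gcd n PR) 1 = false := by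
        rw [Bool.eq_false_iff]; intro h; exact hg (Nat.eq_of_beq_eq_true h)
      rw [hb] at h'
      have h2 : runB k (n + 1) c s = (c', s') := h'
      have hnp : ¬ n.Prime := fun hp => hg (cop_of_prime n hp hn)
      exact ih (n + 1) _ _ c' s' (by omega) (skipB_sound E n c s hnp hI) h2

theorem invB_of_invA (E n e1 e2 tot : ℕ) (l : List ℕ) (h : InvA E n e1 e2 tot l) :
    InvB E n e2 tot := ⟨h.2.1, h.2.2.1⟩

end Pool.Agent.Helper919.Cov
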