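import Mathlib
import Pool.Agent.Helper919.Cov.RegB
import Pool.Agent.Helper919.Cov.CertA

set_option autoImplicit false

namespace Pool.Agent.Helper919.Cov

lemma b200 (E : ℕ) (hE : 33 < E) : InvB E 200 172908258355290797977 599897959135574766 := invB_of_invA E 200 _ _ _ _ (inv200 E hE)

lemma b1024 (E : ℕ) (hE : 33 < E) : InvB E 1024 475266593933059587373 818495234788285275 :=
  runB_sound E 824 200 _ _ _ _ (by norm_num) (b200 E hE) (by decide +kernel)

lemma b2048 (E : ℕ) (hE : 33 < E) : InvB E 2048 690475707946959335934 868322716788306554 :=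
  runB_sound E 1024 1024 _ _ _ _ (by norm_num) (b1024 E hE) (by decide +kernel)

lemma b3072 (E : ℕ) (hE : 33 < E) : InvB E 3072 848733926065057052995 889402432539632597 :=
  runB_sound E 1024 2048 _ _ _ _ (by norm_num) (b2048 E hE) (by decide +kernel)

lemma b4096 (E : ℕ) (hE : 33 < E) : InvB E 4096 976386710415173473557 901367993721601125 :=
  runB_sound E 1024 3072 _ _ _ _ (by norm_num) (b3072 E hE) (by decide +kernel)

lemma b5120 (E : ℕ) (hE : 33 < E) : InvB E 5120 1084701381747836230565 909235086742237854 :=
  runB_sound E 1024 4096 _ _ _ _ (by norm_num) (b4096 E hE) (by decide +kernel)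

lemma b6144 (E : ℕ) (hE : 33 < E) : InvB E 6144 1177848213644076377162 914756094339697372 :=
  runB_sound E 1024 5120 _ _ _ _ (by norm_num) (b5120 E hE) (by decide +kernel)

lemma b7168 (E : ℕ) (hE : 33 < E) : InvB E 7168 1262387508262630956908 919007305968251493 :=
  runB_sound E 1024 6144 _ _ _ _ (by norm_num) (b6144 E hE) (by decide +kernel)

lemma b8192 (E : ℕ) (hE : 33 < E) : InvB E 8192 1338347660142129179164 922312645454738197 :=
  runB_sound E 1024 7168 _ _ _ _ (by norm_num) (b7168 E hE) (by decide +kernel)

lemma b9216 (E : ℕ) (hE : 33 < E) : InvB E 9216 1410374156563148195248 925074523982524245 :=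
  runB_sound E 1024 8192 _ _ _ _ (by norm_num) (b8192 E hE) (by decide +kernel)

lemma b10240 (E : ℕ) (hE : 33 < E) : InvB E 10240 1477007547916234506473 927364517997606023 :=
  runB_sound E 1024 9216 _ _ _ _ (by norm_num) (b9216 E hE) (by decide +kernel)

lemma b11264 (E : ℕ) (hE : 33 < E) : InvB E 11264 1537671851071373426696 929249651654303838 :=
  runB_sound E 1024 10240 _ _ _ _ (by norm_num) (b10240 E hE) (by decide +kernel)

lemma b12288 (E : ℕ) (hE : 33 < E) : InvB E 12288 1594541392107245074729 930858842044912325 :=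
  runB_sound E 1024 11264 _ _ _ _ (by norm_num) (b11264 E hE) (by decide +kernel)

lemma b13312 (E : ℕ) (hE : 33 < E) : InvB E 13312 1650886417208596755775 932328293368157548 :=
  runB_sound E 1024 12288 _ _ _ _ (by norm_num) (b12288 E hE) (by decide +kernel)

lemma b14336 (E : ℕ) (hE : 33 < E) : InvB E 14336 1699930804575948866457 933513292455541010 :=
  runB_sound E 1024 13312 _ _ _ _ (by norm_num) (b13312 E hE) (by decide +kernel)

lemma b15360 (E : ℕ) (hE : 33 < E) : InvB E 15360 1752479911657144567766 934693423548785174 :=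
  runB_sound E 1024 14336 _ _ _ _ (by norm_num) (b14336 E hE) (by decide +kernel)

lemma b16384 (E : ℕ) (hE : 33 < E) : InvB E 16384 1799984378849084317440 935692533398899641 :=
  runB_sound E 1024 15360 _ _ _ _ (by norm_num) (b15360 E hE) (by decide +kernel)

lemma b17408 (E : ℕ) (hE : 33 < E) : InvB E 17408 1843956044584438080321 936559780438451040 :=
  runB_sound E 1024 16384 _ _ _ _ (by norm_num) (b16384 E hE) (by decide +kernel)

lemma b18432 (E : ℕ) (hE : 33 < E) : InvB E 18432 1888947955731670443614 937396833592116960 :=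
  runB_sound E 1024 17408 _ _ _ _ (by norm_num) (b17408 E hE) (by decide +kernel)

lemma b19456 (E : ℕ) (hE : 33 < E) : InvB E 19456 1927194106338429194213 938069476792009471 :=
  runB_sound E 1024 18432 _ _ _ _ (by norm_num) (b18432 E hE) (by decide +kernel)

lemma b20480 (E : ℕ) (hE : 33 < E) : InvB E 20480 1968961613805392851490 938767056732073676 :=
  runB_sound E 1024 19456 _ _ _ _ (by norm_num) (b19456 E hE) (by decide +kernel)

lemma b21504 (E : ℕ) (hE : 33 < E) : InvB E 21504 2007199046472058511107 939373959639575276 :=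
  runB_sound E 1024 20480 _ _ _ _ (by norm_num) (b20480 E hE) (by decide +kernel)

lemma b22528 (E : ℕ) (hE : 33 < E) : InvB E 22528 2045531350527052634285 939955082671180023 :=
  runB_sound E 1024 21504 _ _ _ _ (by norm_num) (b21504 E hE) (by decide +kernel)

lemma b23552 (E : ℕ) (hE : 33 < E) : InvB E 23552 2081764070450772823950 940480045033112074 :=
  runB_sound E 1024 22528 _ _ _ _ (by norm_num) (b22528 E hE) (by decide +kernel)

lemma b24576 (E : ℕ) (hE : 33 < E) : InvB E 24576 2119178223699104395585 940999145481366547 :=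
  runB_sound E 1024 23552 _ _ _ _ (by norm_num) (b23552 E hE) (by decide +kernel)

lemma b25600 (E : ℕ) (hE : 33 < E) : InvB E 25600 2150819015330463942000 941419375295688686 :=
  runB_sound E 1024 24576 _ _ _ _ (by norm_num) (b24576 E hE) (by decide +kernel)

lemma b26624 (E : ℕ) (hE : 33 < E) : InvB E 26624 2184057352830973321432 941844192778240615 :=
  runB_sound E 1024 25600 _ _ _ _ (by norm_num) (b25600 E hE) (by decide +kernel)

lemma b27648 (E : ℕ) (hE : 33 < E) : InvB E 27648 2215893550653052397173 942235996854928213 :=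
  runB_sound E 1024 26624 _ _ _ _ (by norm_num) (b26624 E hE) (by decide +kernel)

lemma b28672 (E : ℕ) (hE : 33 < E) : InvB E 28672 2250138784335869013427 942641277246255681 :=
  runB_sound E 1024 27648 _ _ _ _ (by norm_num) (b27648 E hE) (by decide +kernel)

lemma b29696 (E : ℕ) (hE : 33 < E) : InvB E 29696 2280255933986392694343 942985319543807858 :=
  runB_sound E 1024 28672 _ _ _ _ (by norm_num) (b28672 E hE) (by decide +kernel)

lemma b30720 (E : ℕ) (hE : 33 < E) : InvB E 30720 2308494548214647366201 943296776979444658 :=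
  runB_sound E 1024 29696 _ _ _ _ (by norm_num) (b29696 E hE) (by decide +kernel)

lemma b31744 (E : ℕ) (hE : 33 < E) : InvB E 31744 2338251447044302791847 943614400857174036 :=
  runB_sound E 1024 30720 _ _ _ _ (by norm_num) (b30720 E hE) (by decide +kernel)

lemma b32768 (E : ℕ) (hE : 33 < E) : InvB E 32768 2366826778685098181690 943909569946133555 :=
  runB_sound E 1024 31744 _ _ _ _ (by norm_num) (b31744 E hE) (by decide +kernel)

lemma b33792 (E : ℕ) (hE : 33 < E) : InvB E 33792 2397460472751362316502 944216402803512740 :=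
  runB_sound E 1024 32768 _ _ _ _ (by norm_num) (b32768 E hE) (by decide +kernel)

lemma b34816 (E : ℕ) (hE : 33 < E) : InvB E 34816 2424723838734997749533 944481267746690684 :=
  runB_sound E 1024 33792 _ _ _ _ (by norm_num) (b33792 E hE) (by decide +kernel)

lemma b35840 (E : ℕ) (hE : 33 < E) : InvB E 35840 2450120658242120502321 944720980047866926 :=
  runB_sound E 1024 34816 _ _ _ _ (by norm_num) (b34816 E hE) (by decide +kernel)

lemma b36864 (E : ℕ) (hE : 33 < E) : InvB E 36864 2477222346365289114167 944969441570448960 :=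
  runB_sound E 1024 35840 _ _ _ _ (by norm_num) (b35840 E hE) (by decide +kernel)

lemma b37888 (E : ℕ) (hE : 33 < E) : InvB E 37888 2503351451038265461603 945202583711700213 :=
  runB_sound E 1024 36864 _ _ _ _ (by norm_num) (b36864 E hE) (by decide +kernel)

lemma b38912 (E : ℕ) (hE : 33 < E) : InvB E 38912 2527448220564445244575 945411690855906946 :=
  runB_sound E 1024 37888 _ _ _ _ (by norm_num) (b37888 E hE) (by decide +kernel)

lemma b39936 (E : ℕ) (hE : 33 < E) : InvB E 39936 2552967767803387209084 945627508352751038 :=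
  runB_sound E 1024 38912 _ _ _ _ (by norm_num) (b38912 E hE) (by decide +kernel)

lemma b40960 (E : ℕ) (hE : 33 < E) : InvB E 40960 2576042893562692497387 945817654776137936 :=
  runB_sound E 1024 39936 _ _ _ _ (by norm_num) (b39936 E hE) (by decide +kernel)

lemma b41984 (E : ℕ) (hE : 33 < E) : InvB E 41984 2601754088441818589661 946024257258799920 :=
  runB_sound E 1024 40960 _ _ _ _ (by norm_num) (b40960 E hE) (by decide +kernel)

lemma b43008 (E : ℕ) (hE : 33 < E) : InvB E 43008 2627347615582235604779 946225014196911774 :=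
  runB_sound E 1024 41984 _ _ _ _ (by norm_num) (b41984 E hE) (by decide +kernel)

lemma b44032 (E : ℕ) (hE : 33 < E) : InvB E 44032 2648671644356650306495 946388252233969548 :=
  runB_sound E 1024 43008 _ _ _ _ (by norm_num) (b43008 E hE) (by decide +kernel)

lemma b45056 (E : ℕ) (hE : 33 < E) : InvB E 45056 2671608245457284493122 946559933107503268 :=
  runB_sound E 1024 44032 _ _ _ _ (by norm_num) (b44032 E hE) (by decide +kernel)

lemma b46080 (E : ℕ) (hE : 33 < E) : InvB E 46080 2692566078360319234243 946713277794835771 :=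
  runB_sound E 1024 45056 _ _ _ _ (by norm_num) (b45056 E hE) (by decide +kernel)

lemma b47104 (E : ℕ) (hE : 33 < E) : InvB E 47104 2713926040967662263656 946866162939100220 :=
  runB_sound E 1024 46080 _ _ _ _ (by norm_num) (b46080 E hE) (by decide +kernel)

lemma b48128 (E : ℕ) (hE : 33 < E) : InvB E 48128 2736595442277415589844 947024898452640713 :=
  runB_sound E 1024 47104 _ _ _ _ (by norm_num) (b47104 E hE) (by decide +kernel)

lemma b49152 (E : ℕ) (hE : 33 < E) : InvB E 49152 2758282271699591108979 947173502050979741 :=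
  runB_sound E 1024 48128 _ _ _ _ (by norm_num) (b48128 E hE) (by decide +kernel)

lemma b50176 (E : ℕ) (hE : 33 < E) : InvB E 50176 2781259253384717228028 947327722474283848 :=
  runB_sound E 1024 49152 _ _ _ _ (by norm_num) (b49152 E hE) (by decide +kernel)

lemma b51200 (E : ℕ) (hE : 33 < E) : InvB E 51200 2801301832267413818592 947459517302147708 :=
  runB_sound E 1024 50176 _ _ _ _ (by norm_num) (b50176 E hE) (by decide +kernel)

lemma b52224 (E : ℕ) (hE : 33 < E) : InvB E 52224 2823713482231151515772 947604011849927197 :=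
  runB_sound E 1024 51200 _ _ _ _ (by norm_num) (b51200 E hE) (by decide +kernel)

lemma b53248 (E : ℕ) (hE : 33 < E) : InvB E 53248 2844341358715174296852 947734349023066961 :=
  runB_sound E 1024 52224 _ _ _ _ (by norm_num) (b52224 E hE) (by decide +kernel)

lemma b54272 (E : ℕ) (hE : 33 < E) : InvB E 54272 2864096800648953006629 947856877493593784 :=
  runB_sound E 1024 53248 _ _ _ _ (by norm_num) (b53248 E hE) (by decide +kernel)

lemma b55296 (E : ℕ) (hE : 33 < E) : InvB E 55296 2885097717005282716520 947984737113213383 :=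
  runB_sound E 1024 54272 _ _ _ _ (by norm_num) (b54272 E hE) (by decide +kernel)

lemma b56320 (E : ℕ) (hE : 33 < E) : InvB E 56320 2905641670573769404775 948107441810610429 :=
  runB_sound E 1024 55296 _ _ _ _ (by norm_num) (b55296 E hE) (by decide +kernel)

lemma b57344 (E : ℕ) (hE : 33 < E) : InvB E 57344 2927808548730922032953 948237435444462232 :=
  runB_sound E 1024 56320 _ _ _ _ (by norm_num) (b56320 E hE) (by decide +kernel)

lemma b58368 (E : ℕ) (hE : 33 < E) : InvB E 58368 2947711387086422100837 948352097522186465 :=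
  runB_sound E 1024 57344 _ _ _ _ (by norm_num) (b57344 E hE) (by decide +kernel)

lemma b59392 (E : ℕ) (hE : 33 < E) : InvB E 59392 2967804977217625822809 948465856298872313 :=
  runB_sound E 1024 58368 _ _ _ _ (by norm_num) (b58368 E hE) (by decide +kernel)

lemma b60416 (E : ℕ) (hE : 33 < E) : InvB E 60416 2987096817706977365960 948573246051183686 :=
  runB_sound E 1024 59392 _ _ _ _ (by norm_num) (b59392 E hE) (by decide +kernel)

lemma b61440 (E : ℕ) (hE : 33 < E) : InvB E 61440 3004802368605250235689 948670134771967594 :=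
  runB_sound E 1024 60416 _ _ _ _ (by norm_num) (b60416 E hE) (by decide +kernel)

lemma b62464 (E : ℕ) (hE : 33 < E) : InvB E 62464 3023694998211112468639 948771868409584285 :=
  runB_sound E 1024 61440 _ _ _ _ (by norm_num) (b61440 E hE) (by decide +kernel)

lemma b63488 (E : ℕ) (hE : 33 < E) : InvB E 63488 3043345913769258481812 948875872352423015 :=
  runB_sound E 1024 62464 _ _ _ _ (by norm_num) (b62464 E hE) (by decide +kernel)

lemma b64512 (E : ℕ) (hE : 33 < E) : InvB E 64512 3061479053784471730218 948970367574646234 :=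
  runB_sound E 1024 63488 _ _ _ _ (by norm_num) (b63488 E hE) (by decide +kernel)

lemma b65536 (E : ℕ) (hE : 33 < E) : InvB E 65536 3079802728159790430158 949064308341671958 :=
  runB_sound E 1024 64512 _ _ _ _ (by norm_num) (b64512 E hE) (by decide +kernel)

end Pool.Agent.Helper919.Cov
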