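import Mathlib
import Pool.Agent.Helper919.Cov.RegB

set_option autoImplicit false

namespace Pool.Agent.Helper919.Cov

open Finset
open scoped Classical

/-- primes in `[N, N + j)` -/
def bp (N j : ℕ) : Finset ℕ := (Finset.Ico N (N + j)).filter Nat.Prime

lemma bp_succ_prime (N j : ℕ) (hp : (N + j).Prime) : (bp N (j + 1)).card = (bp N j).card + 1 := by
  unfold bp
  have e : Finset.Ico N (N + (j + 1)) = insert (N + j) (Finset.Ico N (N + j)) := by
    ext x
    simp only [Finset.mem_insert, Finset.mem_Ico]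
    omega
  rw [e, Finset.filter_insert, if_pos hp, Finset.card_insert_of_notMem]
  simp

lemma bp_succ_not (N j : ℕ) (hp : ¬ (N + j).Prime) : (bp N (j + 1)).card = (bp N j).card := by
  unfold bp
  have e : Finset.Ico N (N + (j + 1)) = insert (N + j) (Finset.Ico N (N + j)) := by
    ext x
    simp only [Finset.mem_insert, Finset.mem_Ico]
    omega
  rw [e, Finset.filter_insert, if_neg hp]

lemma bp_mono (N i j : ℕ) (h : i ≤ j) : (bp N i).card ≤ (bp N j).card := by
  apply Finset.card_le_card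
  unfold bp
  apply Finset.filter_subset_filter
  apply Finset.Ico_subset_Ico le_rfl
  omega

/-- Chebyshev bound on a dyadic block -/
lemma bp_le (k : ℕ) (hk : 2 ≤ k) : k * (bp (2 ^ k) (2 ^ k)).card ≤ 2 * 2 ^ k := by
  set N := 2 ^ k with hN
  have hNp : ¬ N.Prime := by
    rw [hN]
    exact Nat.Prime.not_prime_pow hk
  have hN0 : 0 < N := by positivity
  have hdvd : ∏ p ∈ bp N N, p ∣ Nat.centralBinom N := by
    apply Finset.prod_primes_dvd
    · intro p hp
      unfold bp at hp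
      exact (Finset.mem_filter.1 hp).2.prime
    · intro p hp
      unfold bp at hp
      rw [Finset.mem_filter, Finset.mem_Ico] at hp
      obtain ⟨⟨h1, h2⟩, h3⟩ := hp
      have h4 : N < p := lt_of_le_of_ne h1 (by rintro rfl; exact hNp h3)
      have h5 : p ∣ (2 * N).factorial := (h3.dvd_factorial).2 (by omega)
      have h6 : N.centralBinom * N.factorial * N.factorial = (2 * N).factorial := by
        rw [Nat.centralBinom_eq_two_mul_choose]
        have := Nat.choose_mul_factorial_mul_factorial (show N ≤ 2 * N by omega)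
        rw [show 2 * N - N = N by omega] at this
        exact this
      have h7 : ¬ p ∣ N.factorial := by
        rw [h3.dvd_factorial]; omega
      rw [← h6] at h5
      rcases (h3.dvd_mul).1 h5 with h | h
      · rcases (h3.dvd_mul).1 h with h | h
        · exact h
        · exact absurd h h7
      · exact absurd h h7
  have h1 : ∏ p ∈ bp N N, p ≤ 4 ^ N :=
    (Nat.le_of_dvd (Nat.centralBinom_pos N) hdvd).trans (Nat.centralBinom_le_four_pow N)
  have h2 : N ^ (bp N N).card ≤ ∏ p ∈ bp N N, p := by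
    rw [← Finset.prod_const]
    apply Finset.prod_le_prod'
    intro p hp
    unfold bp at hp
    rw [Finset.mem_filter, Finset.mem_Ico] at hp
    exact hp.1.1
  have h3 : 2 ^ (k * (bp N N).card) ≤ 2 ^ (2 * N) := by
    calc 2 ^ (k * (bp N N).card) = N ^ (bp N N).card := by rw [pow_mul]
      _ ≤ 4 ^ N := h2.trans h1
      _ = 2 ^ (2 * N) := by rw [pow_mul]; norm_num
  exact (Nat.pow_le_pow_iff_right (by norm_num)).1 h3

lemma growth (E k : ℕ) (hk : 16 ≤ k) (j : ℕ) :
    m2 E (2 ^ k + j) ≤ m2 E (2 ^ k) * (1 + 4.001 / (2 : ℝ) ^ k) ^ (bp (2 ^ k) j).card := by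
  set N := 2 ^ k with hN
  have hNR : (2 : ℝ) ^ k = (N : ℝ) := by rw [hN]; push_cast; rfl
  have hNbig : 65536 ≤ N := by
    rw [hN]
    calc 65536 = 2 ^ 16 := by norm_num
      _ ≤ 2 ^ k := Nat.pow_le_pow_right (by norm_num) hk
  have hNbigR : (65536 : ℝ) ≤ (N : ℝ) := by exact_mod_cast hNbig
  have hNp : ¬ N.Prime := by
    rw [hN]
    exact Nat.Prime.not_prime_pow (by omega)
  rw [hNR]
  induction j with
  | zero =>
    have : (bp N 0).card = 0 := by unfold bp; simp
    rw [this]; simp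
  | succ j ih =>
    have e : N + (j + 1) = N + j + 1 := rfl
    rw [e]
    by_cases hp : (N + j).Prime
    · rw [bp_succ_prime N j hp, pow_succ]
      refine (m2_big E (N + j) hp (by omega)).trans ?_
      have hj : 1 ≤ j := by
        rcases Nat.eq_zero_or_pos j with h | h
        · rw [h] at hp; exact absurd hp hNp
        · exact h
      have hjR : (1 : ℝ) ≤ (j : ℝ) := by exact_mod_cast hj
      set y := ((N + j : ℕ) : ℝ) - 1 with hy
      have hyN : (N : ℝ) ≤ y := by rw [hy]; push_cast; linarith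
      have hy0 : 0 < y := by linarith
      have hg : 4 * (3 * ((N + j : ℕ) : ℝ) - 1) / (3 * (y * y)) ≤ 4.001 / (N : ℝ) := by
        have e2 : ((N + j : ℕ) : ℝ) = y + 1 := by rw [hy]; ring
        rw [e2, div_le_div_iff₀ (by positivity) (by linarith)]
        have h1 : 4 * (3 * (y + 1) - 1) ≤ 3 * 4.001 * y := by nlinarith
        calc 4 * (3 * (y + 1) - 1) * (N : ℝ) ≤ 3 * 4.001 * y * (N : ℝ) :=
              mul_le_mul_of_nonneg_right h1 (by linarith)
          _ ≤ 3 * 4.001 * y * y := mul_le_mul_of_nonneg_left hyN (by positivity)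
          _ = 4.001 * (3 * (y * y)) := by ring
      have hm : 0 ≤ m2 E (N + j) := m2_nonneg _ _
      calc m2 E (N + j) * (1 + 4 * (3 * ((N + j : ℕ) : ℝ) - 1) / (3 * (y * y)))
          ≤ m2 E (N + j) * (1 + 4.001 / (N : ℝ)) :=
            mul_le_mul_of_nonneg_left (by linarith) hm
        _ ≤ (m2 E N * (1 + 4.001 / (N : ℝ)) ^ (bp N j).card) * (1 + 4.001 / (N : ℝ)) :=
            mul_le_mul_of_nonneg_right ih (by positivity)
        _ = _ := by ring
    · rw [bp_succ_not N j hp]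
      have hp' : ¬ ((N + j).Prime ∧ N + j ≠ 2) := fun h => hp h.1
      have e2 : m2 E (N + j + 1) = m2 E (N + j) := by unfold m2; rw [Ph_skip E (N + j) hp']
      rw [e2]; exact ih

lemma exp_bd : Real.exp (8.002 / 16) ≤ 1.65 := by
  have h1 : Real.exp (8.002 / 16) ^ 2 = Real.exp 1 * Real.exp 0.00025 := by
    rw [← Real.exp_nat_mul, ← Real.exp_add]
    congr 1
    norm_num
  have h2 := Real.exp_one_lt_d9
  have h3 : Real.exp 0.00025 ≤ 1.001 := by
    have := Real.exp_bound_div_one_sub_of_interval (x := 0.00025) (by norm_num) (by norm_num)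
    refine this.trans ?_
    norm_num
  have h4 : Real.exp (8.002 / 16) ^ 2 ≤ 1.65 ^ 2 := by
    rw [h1]
    have h5 := Real.exp_pos 1
    have h6 := Real.exp_pos 0.00025
    nlinarith
  exact le_of_sq_le_sq h4 (by norm_num)
where
  le_of_sq_le_sq {a b : ℝ} (h : a ^ 2 ≤ b ^ 2) (hb : 0 ≤ b) : a ≤ b := by
    exact abs_le_of_sq_le_sq' h hb |>.2

lemma growth' (E k : ℕ) (hk : 16 ≤ k) (j : ℕ) (hj : j ≤ 2 ^ k) :
    m2 E (2 ^ k + j) ≤ 1.65 * m2 E (2 ^ k) := by
  have hk' : (16 : ℝ) ≤ (k : ℝ) := by exact_mod_cast hk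
  refine (growth E k hk j).trans ?_
  have h1 : (bp (2 ^ k) j).card ≤ (bp (2 ^ k) (2 ^ k)).card := bp_mono _ _ _ hj
  have h2 := bp_le k (by omega)
  have h2R : (k : ℝ) * ((bp (2 ^ k) (2 ^ k)).card : ℝ) ≤ 2 * (2 : ℝ) ^ k := by exact_mod_cast h2
  have hNpos : (0 : ℝ) < (2 : ℝ) ^ k := by positivity
  have h3 : (1 + 4.001 / (2 : ℝ) ^ k) ^ (bp (2 ^ k) j).card ≤ 1.65 := by
    calc (1 + 4.001 / (2 : ℝ) ^ k) ^ (bp (2 ^ k) j).card
        ≤ (1 + 4.001 / (2 : ℝ) ^ k) ^ (bp (2 ^ k) (2 ^ k)).card :=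
          pow_le_pow_right₀ (by have : 0 ≤ 4.001 / (2 : ℝ) ^ k := by positivity
                                linarith) h1
      _ ≤ (Real.exp (4.001 / (2 : ℝ) ^ k)) ^ (bp (2 ^ k) (2 ^ k)).card := by
          apply pow_le_pow_left₀ (by positivity)
          have := Real.add_one_le_exp (4.001 / (2 : ℝ) ^ k)
          linarith
      _ = Real.exp (((bp (2 ^ k) (2 ^ k)).card : ℝ) * (4.001 / (2 : ℝ) ^ k)) := by
          rw [← Real.exp_nat_mul]
      _ ≤ Real.exp (8.002 / 16) := by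
          apply Real.exp_le_exp.2
          have h4 : ((bp (2 ^ k) (2 ^ k)).card : ℝ) ≤ 2 * (2 : ℝ) ^ k / 16 := by
            rw [le_div_iff₀ (by norm_num)]
            nlinarith [Nat.cast_nonneg (α := ℝ) (bp (2 ^ k) (2 ^ k)).card]
          calc ((bp (2 ^ k) (2 ^ k)).card : ℝ) * (4.001 / (2 : ℝ) ^ k)
              ≤ 2 * (2 : ℝ) ^ k / 16 * (4.001 / (2 : ℝ) ^ k) :=
                mul_le_mul_of_nonneg_right h4 (by positivity)
            _ = 8.002 / 16 := by field_simp; norm_num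
      _ ≤ 1.65 := exp_bd
  calc m2 E (2 ^ k) * (1 + 4.001 / (2 : ℝ) ^ k) ^ (bp (2 ^ k) j).card
      ≤ m2 E (2 ^ k) * 1.65 := mul_le_mul_of_nonneg_left h3 (m2_nonneg _ _)
    _ = _ := by ring

lemma cost_block (E k : ℕ) (hk : 16 ≤ k) (j : ℕ) (hj : j ≤ 2 ^ k) :
    ∑ i ∈ pr7 (2 ^ k + j), cost E i ≤ ∑ i ∈ pr7 (2 ^ k), cost E i +
      ((bp (2 ^ k) j).card : ℝ) * (2.2 * m2 E (2 ^ k) / ((2 : ℝ) ^ k * (2 : ℝ) ^ k)) := by
  induction j with
  | zero => simp [bp]
  | succ j ih =>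
    have ih' := ih (by omega)
    have e : 2 ^ k + (j + 1) = 2 ^ k + j + 1 := rfl
    rw [e]
    by_cases hp : (2 ^ k + j).Prime
    · have hNbig : 65536 ≤ 2 ^ k := by
        calc 65536 = 2 ^ 16 := by norm_num
          _ ≤ 2 ^ k := Nat.pow_le_pow_right (by norm_num) hk
      have hj1 : 1 ≤ j := by
        rcases Nat.eq_zero_or_pos j with h | h
        · rw [h] at hp; exact absurd hp (Nat.Prime.not_prime_pow (by omega))
        · exact h
      rw [pr7_succ _ hp (by omega), bp_succ_prime _ j hp]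
      have h1 := cost_big E (2 ^ k + j) (by omega)
      have h2 := growth' E k hk j (by omega)
      have hjR : (1 : ℝ) ≤ (j : ℝ) := by exact_mod_cast hj1
      have hy : (2 : ℝ) ^ k ≤ ((2 ^ k + j : ℕ) : ℝ) - 1 := by push_cast; linarith
      have hNpos : (0 : ℝ) < (2 : ℝ) ^ k := by positivity
      have h3 : cost E (2 ^ k + j) ≤ 2.2 * m2 E (2 ^ k) / ((2 : ℝ) ^ k * (2 : ℝ) ^ k) := by
        refine h1.trans ?_
        have hm := m2_nonneg E (2 ^ k)
        calc 4 * m2 E (2 ^ k + j) / (3 * ((((2 ^ k + j : ℕ) : ℝ) - 1) * (((2 ^ k + j : ℕ) : ℝ) - 1)))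
            ≤ 4 * (1.65 * m2 E (2 ^ k)) / (3 * ((((2 ^ k + j : ℕ) : ℝ) - 1)
                * (((2 ^ k + j : ℕ) : ℝ) - 1))) := by
              apply div_le_div_of_nonneg_right _ (by
                apply mul_nonneg (by norm_num)
                exact mul_self_nonneg _)
              linarith
          _ ≤ 4 * (1.65 * m2 E (2 ^ k)) / (3 * ((2 : ℝ) ^ k * (2 : ℝ) ^ k)) := by
              apply div_le_div_of_nonneg_left (by positivity) (by positivity)
              apply mul_le_mul_of_nonneg_left _ (by norm_num)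
              exact mul_le_mul hy hy hNpos.le (by linarith)
          _ = 2.2 * m2 E (2 ^ k) / ((2 : ℝ) ^ k * (2 : ℝ) ^ k) := by
              field_simp
              ring
      push_cast
      linarith
    · rw [pr7_skip _ hp, bp_succ_not _ j hp]
      exact ih'

theorem tail (E : ℕ) (hb : InvB E 65536 3079802728159790430158 949064308341671958) (k : ℕ) (hk : 16 ≤ k) :
    ∑ i ∈ pr7 (2 ^ k), cost E i + 1.6 * m2 E (2 ^ k) / (2 : ℝ) ^ k ≤ 0.9 := by
  induction k, hk using Nat.le_induction with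
  | base =>
    obtain ⟨h1, h2⟩ := hb
    have e : 2 ^ 16 = 65536 := by norm_num
    rw [e]
    have h3 : (3079802728159790430158 : ℝ) / SC ≤ 2672 := by
      rw [div_le_iff₀ SC_pos]
      unfold SC
      norm_num
    have h4 : (949064308341671958 : ℝ) / SC ≤ 0.8232 := by
      rw [div_le_iff₀ SC_pos]
      unfold SC
      norm_num
    have h5 : m2 E 65536 ≤ 2672 := h1.trans h3
    have h6 : ∑ i ∈ pr7 65536, cost E i ≤ 0.8232 := h2.trans h4
    have h7 : 1.6 * m2 E 65536 / (2 : ℝ) ^ 16 ≤ 1.6 * 2672 / (2 : ℝ) ^ 16 := by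
      apply div_le_div_of_nonneg_right _ (by positivity)
      linarith
    have h8 : (1.6 : ℝ) * 2672 / (2 : ℝ) ^ 16 ≤ 0.0653 := by norm_num
    linarith
  | succ k hk ih =>
    have h1 := cost_block E k hk (2 ^ k) le_rfl
    have h2 := growth' E k hk (2 ^ k) le_rfl
    have e : 2 ^ (k + 1) = 2 ^ k + 2 ^ k := by rw [pow_succ]; ring
    rw [e]
    have hm := m2_nonneg E (2 ^ k)
    have hNpos : (0 : ℝ) < (2 : ℝ) ^ k := by positivity
    have hk' : (16 : ℝ) ≤ (k : ℝ) := by exact_mod_cast hk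
    have h3 := bp_le k (by omega)
    have h3R : (k : ℝ) * ((bp (2 ^ k) (2 ^ k)).card : ℝ) ≤ 2 * (2 : ℝ) ^ k := by exact_mod_cast h3
    have h4 : ((bp (2 ^ k) (2 ^ k)).card : ℝ) ≤ 2 * (2 : ℝ) ^ k / 16 := by
      rw [le_div_iff₀ (by norm_num)]
      nlinarith [Nat.cast_nonneg (α := ℝ) (bp (2 ^ k) (2 ^ k)).card]
    have h5 : ((bp (2 ^ k) (2 ^ k)).card : ℝ) * (2.2 * m2 E (2 ^ k) / ((2 : ℝ) ^ k * (2 : ℝ) ^ k))
        ≤ 0.275 * m2 E (2 ^ k) / (2 : ℝ) ^ k := by
      calc ((bp (2 ^ k) (2 ^ k)).card : ℝ) * (2.2 * m2 E (2 ^ k) / ((2 : ℝ) ^ k * (2 : ℝ) ^ k))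
          ≤ 2 * (2 : ℝ) ^ k / 16 * (2.2 * m2 E (2 ^ k) / ((2 : ℝ) ^ k * (2 : ℝ) ^ k)) :=
            mul_le_mul_of_nonneg_right h4 (by positivity)
        _ = 0.275 * m2 E (2 ^ k) / (2 : ℝ) ^ k := by
            field_simp
            ring
    have h6 : 1.6 * m2 E (2 ^ k + 2 ^ k) / (2 : ℝ) ^ (k + 1) ≤ 1.32 * m2 E (2 ^ k) / (2 : ℝ) ^ k := by
      calc 1.6 * m2 E (2 ^ k + 2 ^ k) / (2 : ℝ) ^ (k + 1)
          ≤ 1.6 * (1.65 * m2 E (2 ^ k)) / (2 : ℝ) ^ (k + 1) := by
            apply div_le_div_of_nonneg_right _ (by positivity)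
            linarith
        _ = 1.32 * m2 E (2 ^ k) / (2 : ℝ) ^ k := by
            rw [pow_succ]
            field_simp
            ring
    have h7 : 0.275 * m2 E (2 ^ k) / (2 : ℝ) ^ k + 1.32 * m2 E (2 ^ k) / (2 : ℝ) ^ k
        ≤ 1.6 * m2 E (2 ^ k) / (2 : ℝ) ^ k := by
      rw [← add_div]
      apply div_le_div_of_nonneg_right _ hNpos.le
      linarith
    linarith

theorem total_lt (E : ℕ) (hb : InvB E 65536 3079802728159790430158 949064308341671958) (k : ℕ) (hk : 16 ≤ k) :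
    ∑ i ∈ pr7 (2 ^ k), cost E i < 1 := by
  have h := tail E hb k hk
  have hm := m2_nonneg E (2 ^ k)
  have : 0 ≤ 1.6 * m2 E (2 ^ k) / (2 : ℝ) ^ k := by positivity
  linarith

end Pool.Agent.Helper919.Cov
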